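import Pool.Agent.Helper60.TG.GoalsR
import Pool.Agent.Helper62.TG.STEPN

/-!
# Project TG (MP_a41896_nt): STEPSR (from helper62's lemma `core`)
-/

set_option autoImplicit false

open MvPolynomial

namespace Pool.Agent.Helper60.TG.STEPSRP

open WeierstrassCurve
open Pool.Agent.Helper29.BL Pool.Agent.Helper92.Ru Pool.Agent.Helper42.SG
open Pool.Agent.Helper60.T3 (WL IP zd)
open Pool.Agent.Helper42.TG (EndL)
open Pool.Agent.Helper62.TG.STEPN (core closed GG GG_le)

theorem t (hTRC : Pool.Agent.Helper92.TN.TRC) (hDALG : DALG) : STEPSR := by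
  intro K L _ _ _ _ _ _ W _ R _ ac d hEnd hzd F D hFc hDF v P hv hvt hzv hP hzP hPa
  obtain ⟨x, y, h, rfl⟩ : ∃ x y, ∃ h : (WL L W).Nonsingular x y, v = Affine.Point.some x y h := by
    rcases v with _ | ⟨x, y, h⟩
    · exact absurd rfl hv
    · exact ⟨x, y, h, rfl⟩
  obtain ⟨r, S, hr, hS, hzS⟩ := core hTRC hDALG F D hDF h hzv P hP hzP hPa
  haveI := closed F hFc
  have h2 : (2 : L) ≠ 0 := by
    haveI : CharZero L := charZero_of_injective_algebraMap (algebraMap K L).injective
    exact two_ne_zero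
  set v : (WL L W).Point := Affine.Point.some x y h with hvd
  set G : IntermediateField F L := IntermediateField.adjoin F ({xc v, ps v} : Set L) with hG
  have hx : x ∈ G := IntermediateField.subset_adjoin F _ (by simp [hvd, xc])
  have hψ : 2 * y + (WL L W).a₁ * x + (WL L W).a₃ ∈ G :=
    IntermediateField.subset_adjoin F _ (by simp [hvd, ps])
  have hK : ∀ a : K, algebraMap K L a ∈ G := by
    intro a
    have h3 : algebraMap K L a = algebraMap F L (algebraMap K F a) :=
      IsScalarTower.algebraMap_apply K F L a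
    rw [h3]
    exact G.algebraMap_mem _
  have ha1 : (WL L W).a₁ ∈ G := by
    show (WeierstrassCurve.map W (algebraMap K L)).a₁ ∈ G
    rw [WeierstrassCurve.map_a₁]
    exact hK _
  have ha3 : (WL L W).a₃ ∈ G := by
    show (WeierstrassCurve.map W (algebraMap K L)).a₃ ∈ G
    rw [WeierstrassCurve.map_a₃]
    exact hK _
  have h2m : (2 : L) ∈ G := by
    have := hK 2
    rwa [map_ofNat] at this
  have hy : y ∈ G := by
    have h3 : y = (2 * y + (WL L W).a₁ * x + (WL L W).a₃ - (WL L W).a₁ * x - (WL L W).a₃) / 2 := by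
      field_simp
      ring
    rw [h3]
    exact div_mem (sub_mem (sub_mem hψ (mul_mem ha1 hx)) ha3) h2m
  have hle : (IntermediateField.adjoin F ({x, y} : Set L)) ≤ G := by
    rw [IntermediateField.adjoin_le_iff]
    rintro z (rfl | rfl)
    · exact hx
    · exact hy
  have hSG : IP (G : Set L) S := by
    rcases hS with h0 | h1
    · exact Or.inl h0
    · exact Or.inr ⟨hle (GG_le F x y h1.1), hle (GG_le F x y h1.2)⟩
  obtain ⟨φ, c, hc, hcF⟩ := hEnd F inferInstance v (Affine.Point.some_ne_zero h) hvt S hSG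
  refine ⟨r, φ, c, hr, hcF, ?_⟩
  have hadd := Pool.Agent.Helper85.T3.DADD.t K L W D (ac φ v) c
  rw [← hc, hzS, hzd] at hadd
  rw [hadd]
  ring

end Pool.Agent.Helper60.TG.STEPSRP
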