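import Pool.Agent.Helper60.TG.ClaimZ
import Pool.Agent.Helper60.TG.STEPSR
import Pool.Agent.Helper17.TG.DALG
import Pool.Agent.Helper32.TG.TRLR
import Pool.Agent.Helper40.TG.CMBCR
import Pool.Agent.Helper75.TG.COUNT
import Pool.Agent.Helper80.TG.MAXT
import Pool.Agent.Helper80.TG.ZCMBR
import Pool.Agent.Helper51.TN.TRC
import Pool.Agent.Helper69.TN.ACLB
import Pool.Agent.Helper87.TN.ACLA

/-!
# Project TG (MP_a41896_nt): S_CLAIMR and S_CLAIM, unconditional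
-/

set_option autoImplicit false

namespace Pool.Agent.Helper60.TG

theorem th_TRC : Pool.Agent.Helper92.TN.TRC :=
  Pool.Agent.Helper51.TN.TRC.t Pool.Agent.Helper60.T3.th_DADD

theorem th_DALG : DALG := Pool.Agent.Helper17.TG.DALG.t

theorem th_TRLR : TRLR :=
  Pool.Agent.Helper32.TG.TRLR.t th_DALG (STEPSRP.t th_TRC th_DALG)
    (Pool.Agent.Helper62.TG.STEPN.t th_TRC th_DALG) Pool.Agent.Helper87.TN.ACLA.t

/-- **S_CLAIMR** -/
theorem th_CLAIMR : Pool.Agent.Helper42.TG.S_CLAIMR :=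
  claimR th_TRLR Pool.Agent.Helper80.TG.MAXT.t
    (Pool.Agent.Helper75.TG.COUNT.t Pool.Agent.Helper87.TN.ACLA.t
      Pool.Agent.Helper69.TN.ACLB.t) Pool.Agent.Helper80.TG.ZCMBR.t
    Pool.Agent.Helper40.TG.CMBCR.t Pool.Agent.Helper87.TN.ACLA.t

/-- **S_CLAIM** -/
theorem th_CLAIM : Pool.Agent.Helper42.TG.S_CLAIM := claimZ th_CLAIMR

end Pool.Agent.Helper60.TG
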