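import Pool.Agent.Helper60.TG.GoalsR
import Pool.Agent.Helper44.T3.CASB
import Pool.Agent.Helper79.T3.DEX

/-!
# Project TG (MP_a41896_nt): S_CLAIMR (assembly)
-/

set_option autoImplicit false

open MvPolynomial

namespace Pool.Agent.Helper60.TG

open WeierstrassCurve
open Pool.Agent.Helper29.BL Pool.Agent.Helper92.Ru Pool.Agent.Helper42.SG
open Pool.Agent.Helper60.T3 (WL IP zd)
open Pool.Agent.Helper42.TN (NonIsog)
open Pool.Agent.Helper42.TG (cmbR EndL TFamR S_CLAIMR)
open Pool.Agent.Helper92.TN (acl)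

noncomputable section

theorem alg_mono {K L : Type} [Field K] [Field L] [Algebra K L] {F G : IntermediateField K L}
    (h : F ≤ G) {z : L} (hz : IsAlgebraic F z) : IsAlgebraic G z := by
  obtain ⟨p, hp, hpz⟩ := hz
  refine ⟨p.map (IntermediateField.inclusion h).toRingHom, ?_, ?_⟩
  · rw [Ne, Polynomial.map_eq_zero_iff (IntermediateField.inclusion h).toRingHom.injective]
    exact hp
  · rw [Polynomial.aeval_def, Polynomial.eval₂_map]
    rw [Polynomial.aeval_def] at hpz
    exact hpz

theorem cmbR_single {ι τ : Type} [DecidableEq ι] [DecidableEq τ] [Fintype τ] {R M : ι → Type}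
    [∀ c, CommRing (R c)] [∀ c, AddCommGroup (M c)] (ac : ∀ c, R c →+* AddMonoid.End (M c))
    (cl : τ → ι) (w : ∀ j, M (cl j)) (j : τ) :
    cmbR ac cl w (cl j) (fun i => if i = j then 1 else 0) = w j := by
  unfold cmbR
  rw [Finset.sum_eq_single j]
  · simp
  · intro b _ hb
    by_cases h : cl b = cl j
    · rw [dif_pos h]
      simp only [if_neg hb, map_zero]
      rfl
    · rw [dif_neg h]
  · intro h
    exact absurd (Finset.mem_univ j) h

theorem cast_nat {ι : Type} {R : ι → Type} [∀ c, CommRing (R c)] {c c' : ι} (h : c = c')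
    (N : ℕ) : (h ▸ (N : R c) : R c') = (N : R c') := by
  subst h
  rfl

theorem cast_zero' {ι : Type} {R : ι → Type} [∀ c, CommRing (R c)] {c c' : ι} (h : c = c') :
    (h ▸ (0 : R c) : R c') = 0 := by
  subst h
  rfl

/-- **S_CLAIMR** from the goals -/
theorem claimR (hTRL : TRLR) (hMAXT : MAXT) (hCOUNT : COUNT) (hZC : ZCMBR) (hCM : CMBCR)
    (hACLA : Pool.Agent.Helper92.TN.ACLA) : S_CLAIMR := by
  classical
  intro K κ L _ _ _ _ _ _ _ _ _ _ _ ι _ E hE hiso R _ _ _ ac d hd hzd hIP τ _ _ cl hEnd w hTF hP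
    hdep D α hα
  by_contra hα0
  haveI : CharZero κ := charZero_of_injective_algebraMap (algebraMap K κ).injective
  -- the points are not constant
  have hw : ∀ j, w j ∉ {P : (WL L (E (cl j))).Point | IP (Set.range (algebraMap κ L)) P} := by
    intro j
    have h := hTF (cl j) (fun i => if i = j then 1 else 0) ⟨j, rfl, by simp⟩
    have h2 := cmbR_single (R := R) (M := fun c => (WL L (E c)).Point) ac cl w j
    rw [h2] at h
    exact h
  have hw0 : ∀ j, w j ≠ 0 := fun j h => hw j (Or.inl h)
  have hxt : ∀ j, Transcendental κ (xc (w j)) := by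
    intro j hj
    exact hw j (Pool.Agent.Helper44.T3.CASB.ip_of_x (E (cl j)) (w j) (hw0 j)
      (Pool.Agent.Helper52.T3.CFACT.const_of_alg _ hj))
  have hps : ∀ j, ps (w j) ≠ 0 := by
    intro j h
    have h1 := Pool.Agent.Helper24.SGB.ps_sq (w j) (hw0 j)
    rw [h] at h1
    have hE' := hE (cl j)
    have h2 : IsAlgebraic κ (xc (w j)) :=
      Pool.Agent.Helper52.T3.CFACT.alg_of_Bf (E (cl j)) _ (by rw [← h1]; ring)
    exact hxt j h2
  set DK : Derivation K L L := D.restrictScalars K with hDK
  have hDKe : ∀ z, DK z = D z := fun z => rfl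
  have hz : ∀ j, zd DK (w j) = algebraMap κ L (α j) := by
    intro j
    unfold zd
    rw [hDKe, hα j, mul_div_cancel_right₀ _ (hps j)]
  set x : τ → L := fun j => xc (w j) with hx
  set M : IntermediateField κ L := acl κ (Set.range x) with hM
  set C : IntermediateField κ L := cst D ⊓ M with hC
  obtain ⟨aM1, aM2, -, aM4, -, -, -⟩ := hACLA κ L (Set.range x) ∅
  have hMcl : ∀ z : L, IsAlgebraic M z → z ∈ M := by
    intro z hz
    obtain ⟨b1, -, -, -, -, -, -⟩ := hACLA κ L (M : Set L) ∅
    have h1 : z ∈ acl κ ((M : Set L) ∪ ∅) := by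
      rw [Set.union_empty, b1]
      refine alg_mono ?_ hz
      exact fun y hy => IntermediateField.subset_adjoin κ _ hy
    rw [hM, aM4, Set.union_empty] at h1
    exact h1
  have hCcl : ∀ z : L, IsAlgebraic C z → z ∈ C := by
    intro z hz
    refine ⟨?_, hMcl z (alg_mono inf_le_right hz)⟩
    have h1 : IsAlgebraic (cst D) z := alg_mono inf_le_left hz
    exact Pool.Agent.Helper79.T3.DEX.alg_cst D z h1
  have hC0 : ∀ z ∈ C, D z = 0 := fun z hz => hz.1
  have hCM' : ∀ z ∈ C, IsAlgebraic (IntermediateField.adjoin κ (Set.range x)) z := fun z hz =>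
    (aM1 z).1 hz.2
  obtain ⟨T, hT, hTx⟩ := hMAXT K κ L τ x C
  set CK : IntermediateField K L := C.restrictScalars K with hCK
  have hCKcl : ∀ z : L, IsAlgebraic CK z → z ∈ CK := fun z hz => hCcl z hz
  have hCK0 : ∀ z ∈ CK, DK z = 0 := fun z hz => hC0 z hz
  have hadj : ∀ z : L, IsAlgebraic (IntermediateField.adjoin K (CK : Set L)) z → z ∈ CK := by
    intro z hz
    refine hCKcl z (alg_mono ?_ hz)
    exact IntermediateField.adjoin_le_iff.2 subset_rfl
  -- `T` is not empty
  have hTne : T.Nonempty := by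
    rw [Finset.nonempty_iff_ne_empty]
    rintro rfl
    obtain ⟨j, hj⟩ : ∃ j, α j ≠ 0 := by
      by_contra h
      push Not at h
      exact hα0 (funext h)
    have h1 := hTx j
    rw [Finset.coe_empty, Set.image_empty, Set.union_empty] at h1
    have h2 : D (x j) = 0 := hCK0 _ (hadj _ h1)
    have h3 := hα j
    rw [show xc (w j) = x j from rfl, h2] at h3
    rcases mul_eq_zero.1 h3.symm with h4 | h4
    · exact hj ((map_eq_zero _).1 h4)
    · exact hps j h4
  -- the relations
  have hrel : ∀ a : {a : τ // a ∉ T}, ∃ (N : ℕ) (n : {b : τ // b ∈ T} → R (cl a.1)), N ≠ 0 ∧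
      (∀ b : {b : τ // b ∈ T}, cl b.1 ≠ cl a.1 → n b = 0) ∧
      (N : L) * zd DK (w a.1) =
        ∑ b : {b : τ // b ∈ T}, algebraMap K L (d (cl a.1) (n b)) * zd DK (w b.1) := by
    intro a
    refine hTRL K L ι E hE hiso R ac d hzd {b : τ // b ∈ T} (fun b => cl b.1)
      (fun b => w b.1) CK DK hCKcl hCK0 (fun b => ⟨hw0 b.1, hps b.1⟩) ?_ (cl a.1) (w a.1) ?_
      (hw0 a.1) ?_ ?_
    · intro b
      rw [hz]
      exact C.algebraMap_mem _
    · intro b hb
      have hne : a.1 ≠ b.1 := by
        intro h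
        exact a.2 (h ▸ b.2)
      exact hEnd a.1 b.1 hne hb.symm
    · rw [hz]
      exact C.algebraMap_mem _
    · have h1 := hTx a.1
      have h2 : x '' (T : Set τ) = Set.range fun b : {b : τ // b ∈ T} => xc (w b.1) := by
        ext z
        constructor
        · rintro ⟨b, hb, rfl⟩
          exact ⟨⟨b, hb⟩, rfl⟩
        · rintro ⟨b, rfl⟩
          exact ⟨b.1, b.2, rfl⟩
      rw [h2] at h1
      exact h1
  choose N n hN hn hsum using hrel
  -- the coefficients of the constant combinations
  set m : ∀ a : {a : τ // a ∉ T}, τ → R (cl a.1) := fun a j =>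
    if j = a.1 then (N a : R (cl a.1)) else if h : j ∈ T then - n a ⟨j, h⟩ else 0 with hm
  set l : ∀ a : {a : τ // a ∉ T}, (WL L (E (cl a.1))).Point := fun a =>
    cmbR (M := fun c => (WL L (E c)).Point) ac cl w (cl a.1) (m a) with hl
  have hzl : ∀ a, zd DK (l a) = 0 := by
    intro a
    rw [hl]
    simp only
    rw [(hZC K L ι E hE R ac d hzd hIP τ cl w (cl a.1) (m a)).1 DK]
    have hsub : insert a.1 T ⊆ Finset.univ := Finset.subset_univ _
    rw [← Finset.sum_subset hsub, Finset.sum_insert a.2]
    · rw [if_pos rfl]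
      have e1 : m a a.1 = (N a : R (cl a.1)) := by
        rw [hm]
        simp
      rw [e1, map_natCast, map_natCast, hsum a]
      have e2 : ∀ b ∈ T, (if cl b = cl a.1 then algebraMap K L (d (cl a.1) (m a b)) *
          zd DK (w b) else 0) = (fun b : τ => if h : b ∈ T then
            - (algebraMap K L (d (cl a.1) (n a ⟨b, h⟩)) * zd DK (w b)) else 0) b := by
        intro b hb
        have hne : b ≠ a.1 := fun h => a.2 (h ▸ hb)
        simp only [dif_pos hb]
        have e3 : m a b = - n a ⟨b, hb⟩ := by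
          rw [hm]
          simp only [if_neg hne, dif_pos hb]
        rw [e3, map_neg, map_neg]
        by_cases hcl : cl b = cl a.1
        · rw [if_pos hcl]
          ring
        · rw [if_neg hcl, hn a ⟨b, hb⟩ hcl]
          simp
      rw [Finset.sum_congr rfl e2, ← Finset.sum_coe_sort T]
      rw [← Finset.sum_add_distrib]
      refine Finset.sum_eq_zero fun b _ => ?_
      rw [dif_pos b.2]
      ring
    · intro j _ hj
      rw [Finset.mem_insert, not_or] at hj
      have e1 : m a j = 0 := by
        rw [hm]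
        simp only [if_neg hj.1, dif_neg hj.2]
      rw [e1]
      simp
  -- the coordinates are constants of `M`
  have hMK : ∀ j, IP ((M.restrictScalars K : IntermediateField K L) : Set L) (w j) := by
    intro j
    refine Or.inr ⟨?_, ?_⟩
    · show xc (w j) ∈ M
      exact aM2 ⟨j, rfl⟩
    · show ps (w j) ∈ M
      have h1 : Bf (WL L (E (cl j))) (xc (w j)) ∈ (M.restrictScalars K : IntermediateField K L) :=
        Pool.Agent.Helper44.T3.CASB.bf_mem (E (cl j)) (F := M.restrictScalars K)
          (by
            show xc (w j) ∈ M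
            exact aM2 ⟨j, rfl⟩)
      have hE' := hE (cl j)
      rw [← Pool.Agent.Helper24.SGB.ps_sq (w j) (hw0 j)] at h1
      have h2 : ps (w j) ^ 2 ∈ M := h1
      refine hMcl _ ?_
      have h3 : IsAlgebraic M (ps (w j) ^ 2) :=
        isAlgebraic_algebraMap (A := L) (⟨_, h2⟩ : M)
      exact h3.of_pow (by norm_num)
  have hlC : ∀ a, xc (l a) ∈ C := by
    intro a
    have hlM : IP ((M.restrictScalars K : IntermediateField K L) : Set L) (l a) :=
      (hZC K L ι E hE R ac d hzd hIP τ cl w (cl a.1) (m a)).2 _ fun j _ => hMK j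
    by_cases hl0 : l a = 0
    · rw [hl0]
      show (0 : L) ∈ C
      exact zero_mem C
    have hxM : xc (l a) ∈ M := by
      rcases hlM with h | h
      · exact absurd h hl0
      · exact h.1
    have h1 := hzl a
    unfold zd at h1
    rcases div_eq_zero_iff.1 h1 with h2 | h2
    · exact ⟨h2, hxM⟩
    · have hE' := hE (cl a.1)
      have h3 := Pool.Agent.Helper24.SGB.ps_sq (l a) hl0
      rw [h2] at h3
      have h4 : IsAlgebraic κ (xc (l a)) :=
        Pool.Agent.Helper52.T3.CFACT.alg_of_Bf (E (cl a.1)) _ (by rw [← h3]; ring)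
      obtain ⟨c, hc⟩ := Pool.Agent.Helper52.T3.CFACT.const_of_alg _ h4
      rw [← hc]
      exact C.algebraMap_mem c
  -- the family `l` is totally fast
  set e : Fin (Fintype.card {a : τ // a ∉ T}) ≃ {a : τ // a ∉ T} :=
    (Fintype.equivFin {a : τ // a ∉ T}).symm with he
  have hcard : Fintype.card {a : τ // a ∉ T} < Fintype.card τ := by
    obtain ⟨b, hb⟩ := hTne
    exact Fintype.card_subtype_lt (x := b) (by simpa using hb)
  have hfree := hP _ hcard (fun i => cl (e i).1) (fun i => m (e i)) ?_
  · refine hCOUNT κ L τ x hdep C hCcl hCM' T hT (fun a => xc (l a)) hlC ?_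
    have h1 := hfree.comp e.symm e.symm.injective
    have h2 : ((fun i => xc (cmbR (M := fun c => (WL L (E c)).Point) ac cl w
        (cl (e i).1) (m (e i)))) ∘ e.symm) = fun a => xc (l a) := by
      funext a
      have h3 : ∀ b : {a : τ // a ∉ T}, b = a → xc (cmbR (M := fun c => (WL L (E c)).Point) ac cl w
        (cl b.1) (m b)) = xc (l a) := by
        rintro b rfl
        rfl
      exact h3 _ (e.apply_symm_apply a)
    rw [h2] at h1
    exact h1
  · intro c k ⟨i, hi, hki⟩ hmem
    have h1 := hCM ι τ (Fin (Fintype.card {a : τ // a ∉ T})) R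
      (fun c => (WL L (E c)).Point) ac cl w (fun i => cl (e i).1) (fun i => m (e i)) c k
    rw [h1] at hmem
    refine hTF c _ ⟨(e i).1, hi, ?_⟩ hmem
    rw [Finset.sum_eq_single i]
    · rw [dif_pos hi]
      have e1 : m (e i) (e i).1 = (N (e i) : R (cl (e i).1)) := by
        rw [hm]
        simp
      rw [e1, cast_nat (R := R) hi]
      exact mul_ne_zero hki (Nat.cast_ne_zero.2 (hN (e i)))
    · intro i' _ hi'
      by_cases h : cl (e i').1 = c
      · rw [dif_pos h]
        have hne : (e i).1 ≠ (e i').1 := by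
          intro h'
          exact hi' (e.injective (Subtype.ext h'.symm))
        have e1 : m (e i') (e i).1 = 0 := by
          rw [hm]
          simp only [if_neg hne, dif_neg (e i).2]
        rw [e1, cast_zero' (R := R) h, mul_zero]
      · rw [dif_neg h]
    · intro h
      exact absurd (Finset.mem_univ i) h

end

end Pool.Agent.Helper60.TG
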