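import Pool.Agent.Helper60.TG.Claim
import Pool.Agent.Helper60.T3.Ind
import Pool.Agent.Helper92.TG.Cmb

/-!
# Project TG (MP_a41896_nt): S_CLAIM (integers) from S_CLAIMR
-/

set_option autoImplicit false

open MvPolynomial

namespace Pool.Agent.Helper60.TG

open WeierstrassCurve
open Pool.Agent.Helper29.BL Pool.Agent.Helper92.Ru Pool.Agent.Helper42.SG
open Pool.Agent.Helper60.T3 (WL IP zd)
open Pool.Agent.Helper42.TN (NonIsog NoCM)
open Pool.Agent.Helper42.TG (cmbR EndL TFamR S_CLAIMR S_CLAIM)
open Pool.Agent.Helper92.TG (acZ acZ_apply cmb_eq tfam_iff)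

noncomputable section

theorem endL_of_noCM {K L : Type} [Field K] [CharZero K] [Field L] [DecidableEq L] [Algebra K L]
    (W : Affine K) (h : NoCM W) :
    EndL (R := ℤ) W (Int.castRingHom (AddMonoid.End (WL L W).Point)) := by
  intro F hF v hv0 htr S hS
  by_cases hS0 : S = 0
  · refine ⟨0, 0, ?_, Or.inl rfl⟩
    rw [map_zero, hS0, add_zero]
    rfl
  rcases hS with hS | hS
  · exact absurd hS hS0
  rcases v with _ | ⟨x, y, hxy⟩
  · exact absurd rfl hv0
  rcases S with _ | ⟨x', y', hxy'⟩
  · exact absurd rfl hS0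
  have h2 : (2 : L) ≠ 0 := by
    haveI : CharZero L := charZero_of_injective_algebraMap (algebraMap K L).injective
    exact two_ne_zero
  set G : IntermediateField F L := IntermediateField.adjoin F ({x, y} : Set L) with hG
  have hx : x ∈ G := IntermediateField.subset_adjoin F _ (by simp)
  have hy : y ∈ G := IntermediateField.subset_adjoin F _ (by simp)
  have hK : ∀ a : K, algebraMap K L a ∈ G := by
    intro a
    have h3 : algebraMap K L a = algebraMap F L (algebraMap K F a) :=
      IsScalarTower.algebraMap_apply K F L a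
    rw [h3]
    exact G.algebraMap_mem _
  have ha1 : (WL L W).a₁ ∈ G := by
    show (WeierstrassCurve.map W (algebraMap K L)).a₁ ∈ G
    rw [WeierstrassCurve.map_a₁]
    exact hK _
  have ha3 : (WL L W).a₃ ∈ G := by
    show (WeierstrassCurve.map W (algebraMap K L)).a₃ ∈ G
    rw [WeierstrassCurve.map_a₃]
    exact hK _
  have hle : IntermediateField.adjoin F
      ({xc (Affine.Point.some x y hxy : (WL L W).Point),
        ps (Affine.Point.some x y hxy : (WL L W).Point)} : Set L) ≤ G := by
    rw [IntermediateField.adjoin_le_iff]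
    rintro z (rfl | rfl)
    · exact hx
    · show 2 * y + (WL L W).a₁ * x + (WL L W).a₃ ∈ G
      have h2m : (2 : L) ∈ G := by
        have := hK 2
        rwa [map_ofNat] at this
      exact add_mem (add_mem (mul_mem h2m hy) (mul_mem ha1 hx)) ha3
  have hx' : x' ∈ G := hle hS.1
  have hps' : 2 * y' + (WL L W).a₁ * x' + (WL L W).a₃ ∈ G := hle hS.2
  have hy' : y' ∈ G := by
    have h2m : (2 : L) ∈ G := by
      have := hK 2
      rwa [map_ofNat] at this
    have h3 : y' = (2 * y' + (WL L W).a₁ * x' + (WL L W).a₃ - (WL L W).a₁ * x' -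
        (WL L W).a₃) / 2 := by
      field_simp
      ring
    rw [h3]
    exact div_mem (sub_mem (sub_mem hps' (mul_mem ha1 hx')) ha3) h2m
  obtain ⟨φ, c, hc, hc'⟩ := h F L x y hxy htr x' y' hxy' hx' hy'
  refine ⟨φ, c, ?_, ?_⟩
  · rw [hc]
    congr 1
  · rcases hc' with h0 | ⟨x₀, y₀, h₀, hc0⟩
    · exact Or.inl h0
    · refine Or.inr ?_
      rw [hc0]
      refine ⟨x₀.2, ?_⟩
      show 2 * (algebraMap F L y₀) + (WL L W).a₁ * (algebraMap F L x₀) + (WL L W).a₃ ∈ (F : Set L)
      have hKF : ∀ a : K, algebraMap K L a ∈ F := fun a => F.algebraMap_mem a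
      have h2m : (2 : L) ∈ F := by
        have := hKF 2
        rwa [map_ofNat] at this
      have ha1F : (WL L W).a₁ ∈ F := by
        show (WeierstrassCurve.map W (algebraMap K L)).a₁ ∈ F
        rw [WeierstrassCurve.map_a₁]
        exact hKF _
      have ha3F : (WL L W).a₃ ∈ F := by
        show (WeierstrassCurve.map W (algebraMap K L)).a₃ ∈ F
        rw [WeierstrassCurve.map_a₃]
        exact hKF _
      exact add_mem (add_mem (mul_mem h2m y₀.2) (mul_mem ha1F x₀.2)) ha3F

theorem zd_zsmul {K L : Type} [Field K] [CharZero K] [Field L] [DecidableEq L] [Algebra K L]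
    (W : Affine K) [W.IsElliptic] (D : Derivation K L L) (n : ℤ) (P : (WL L W).Point) :
    zd D (n • P) = (n : L) * zd D P := by
  have hadd : ∀ P Q : (WL L W).Point, zd D (P + Q) = zd D P + zd D Q := fun P Q =>
    Pool.Agent.Helper60.T3.th_DADD K L W D P Q
  have h0 : zd D (0 : (WL L W).Point) = 0 := by
    have := hadd 0 0
    rw [add_zero] at this
    linear_combination -this
  let f : (WL L W).Point →+ L := ⟨⟨fun P => zd D P, h0⟩, hadd⟩
  have h := map_zsmul f n P
  rw [zsmul_eq_mul] at h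
  exact h

theorem ip_zsmul {K L : Type} [Field K] [CharZero K] [Field L] [DecidableEq L] [Algebra K L]
    (W : Affine K) (F : IntermediateField K L) (n : ℤ) (P : (WL L W).Point)
    (h : IP (F : Set L) P) : IP (F : Set L) (n • P) := by
  obtain ⟨-, -, h3, h4⟩ := Pool.Agent.Helper60.T3.th_SUBF K L W F P P h h
  rcases Int.eq_nat_or_neg n with ⟨m, rfl | rfl⟩
  · rw [natCast_zsmul]
    exact h4 m
  · rw [neg_smul, natCast_zsmul]
    obtain ⟨-, -, h5, -⟩ := Pool.Agent.Helper60.T3.th_SUBF K L W F (m • P) P (h4 m) h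
    exact h5

/-- **S_CLAIM** from S_CLAIMR -/
theorem claimZ (hR : S_CLAIMR) : S_CLAIM := by
  intro K κ L _ _ _ _ _ _ _ _ _ _ _ ι _ E hE hiso τ _ _ cl hCM w hTF hP hdep D α hα
  refine hR K κ L ι E hE hiso (fun _ => ℤ) (acZ (fun c => (WL L (E c)).Point))
    (fun _ => Int.castRingHom K) (fun _ => (Int.castRingHom K).injective_int) ?_ ?_ τ cl ?_ w ?_
    ?_ hdep D α hα
  · intro c ρ D' P
    have hE' := hE c
    rw [acZ_apply, zd_zsmul]
    simp
  · intro c ρ F P h
    rw [acZ_apply]
    exact ip_zsmul (E c) F ρ P h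
  · intro i k hik hcl
    exact endL_of_noCM (E (cl i)) (hCM i k hik hcl)
  · exact (tfam_iff (M := fun c => (WL L (E c)).Point) _ cl w).1 hTF
  · intro ρ hρ cl' n hT
    have h1 := hP ρ hρ cl' n
    simp only [cmb_eq] at h1
    refine h1 ?_
    rw [tfam_iff]
    exact hT

end

end Pool.Agent.Helper60.TG
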