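import Pool.Agent.Helper42.TG.Defs
import Pool.Agent.Helper92.TN.GoalsF

/-!
# Project TG (MP_a41896_nt): goals for S_CLAIM

`zd D P = D x(P) / ψ(P)` is additive in `P` (DADD, landed: `Pool/Agent/Helper60/T3/Ind.lean`, `th_DADD`; `th_SUBF`: points with coordinates in an
intermediate field).  TRC (trace of a point): `Helper92/TN/GoalsF.lean`.
LEMMA TRL: if `x(P)` is algebraic over `C(x(v_j))`, `D = 0` on the algebraically closed field `C`, `zd D v_j, zd D P ∈ C`, then
`N zd D P = ∑ n_j zd D v_j` with integers `n_j`, `N ≥ 1`, where `n_j ≠ 0` only for the `j` in the class of `P`.  Induction on the number of points by the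
one-variable steps STEPS (the same curve, `NoCM`), STEPN (not isogenous).
-/

set_option autoImplicit false

open MvPolynomial

namespace Pool.Agent.Helper60.TG

open WeierstrassCurve
open Pool.Agent.Helper29.BL Pool.Agent.Helper92.Ru Pool.Agent.Helper42.SG
open Pool.Agent.Helper60.T3 (WL IP zd)
open Pool.Agent.Helper42.TN (NonIsog NoCM)
open Pool.Agent.Helper42.TG (cmb)
open Pool.Agent.Helper92.TN (acl)

noncomputable section

/-- the field of constants of `D` -/
def cst {κ L : Type} [Field κ] [Field L] [Algebra κ L] (D : Derivation κ L L) :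
    IntermediateField κ L where
  carrier := {z | D z = 0}
  mul_mem' := by
    intro a b ha hb
    have ha' : D a = 0 := ha
    have hb' : D b = 0 := hb
    show D (a * b) = 0
    rw [Derivation.leibniz, ha', hb']
    simp
  one_mem' := D.map_one_eq_zero
  add_mem' := by
    intro a b ha hb
    have ha' : D a = 0 := ha
    have hb' : D b = 0 := hb
    show D (a + b) = 0
    rw [map_add, ha', hb', add_zero]
  zero_mem' := map_zero D
  algebraMap_mem' r := D.map_algebraMap r
  inv_mem' := by
    intro a ha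
    have ha' : D a = 0 := ha
    show D a⁻¹ = 0
    by_cases h : a = 0
    · rw [h, inv_zero, map_zero]
    · have h1 : D (a * a⁻¹) = 0 := by rw [mul_inv_cancel₀ h, D.map_one_eq_zero]
      rw [Derivation.leibniz, ha', smul_zero, add_zero, smul_eq_mul] at h1
      exact (mul_eq_zero.1 h1).resolve_left h

theorem mem_cst {κ L : Type} [Field κ] [Field L] [Algebra κ L] (D : Derivation κ L L) (z : L) :
    z ∈ cst D ↔ D z = 0 := Iff.rfl

/-! ## Derivations and algebraic elements -/

/-- **DALG**: derivations and algebraic elements. No hypotheses.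
PROOF. (1) Let `p` be the minimal polynomial of `z` over `F` (monic, separable: characteristic `0`), `0 = D(p(z)) = p^D(z) + p'(z) D z`, `p^D` the polynomial with the coefficients `D a_i ∈ F`, `p'(z) ≠ 0`: `D z = - p^D(z)/p'(z) ∈ F(z)`. (2) `p^D = 0`. (3) For `z ∈ S` by hypothesis; the elements `z` of `adjoin K S` with `D z ∈ adjoin K S` form an intermediate field (quotient rule), `IntermediateField.adjoin_le_iff` or `adjoin_induction`. (4) The same field: `G := adjoin K S`; for `z` algebraic over `G`: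
with `F' := ` the elements algebraic over `G` (`algebraicClosure G L`, as a subfield): `D s` is algebraic over `G` for `s ∈ S`, so `D` maps `G` to `F'`; `p^D` has coefficients in `F'`, `D z = - p^D(z)/p'(z)` is algebraic over `G`. -/
def DALG : Prop :=
  ∀ (K L : Type) [Field K] [CharZero K] [Field L] [Algebra K L] (D : Derivation K L L),
    (∀ F : IntermediateField K L, (∀ z ∈ F, D z ∈ F) → ∀ z : L, IsAlgebraic F z →
      D z ∈ IntermediateField.adjoin K ((F : Set L) ∪ {z})) ∧
    (∀ F : IntermediateField K L, (∀ z ∈ F, D z = 0) → ∀ z : L, IsAlgebraic F z → D z = 0) ∧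
    (∀ S : Set L, (∀ z ∈ S, D z ∈ IntermediateField.adjoin K S) →
      ∀ z ∈ IntermediateField.adjoin K S, D z ∈ IntermediateField.adjoin K S) ∧
    ∀ S : Set L, (∀ z ∈ S, IsAlgebraic (IntermediateField.adjoin K S) (D z)) →
      ∀ z : L, IsAlgebraic (IntermediateField.adjoin K S) z →
        IsAlgebraic (IntermediateField.adjoin K S) (D z)

/-! ## The one-variable steps -/

/-- **STEPS**: the same curve. Hypotheses allowed: `Helper92.TN.TRC`, DALG; landed: `Helper60.T3.th_DADD`, `th_SUBF` (`Pool/Agent/Helper60/T3/Ind.lean`).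
PROOF. `G := adjoin K (F ∪ {xc v, ps v})`. (a) `ps v ≠ 0`: `ps v ^ 2 = B(xc v) ≠ 0` because `xc v` is transcendental over `F` (`Bf`, `ps_sq`). `D` maps `G` to `G` (DALG (3)): `D (xc v) = zd D v * ps v`, and `2 ψ D ψ = B'(x) D x`, `ψ = ps v`, `x = xc v`, so `D ψ = B'(x) zd D v / 2`. (b) `xc P` is algebraic over `G` (`adjoin` is monotone). TRC for `G`, `P` (`zd D P ∈ F ⊆ G`): `r ≠ 0`, `S`, `IP G S`, `zd D S = r zd D P`. (c) `S = 0`: then `r zd D P = zd D 0 = 0`
(`xc 0 = 0`): `N := r`, `φ := 0`, `Q := 0`. (d) `S = some x' y' h'`: `x' ∈ G`, `y' = (ps S - a₁ x' - a₃)/2 ∈ G`; `G ⊆ adjoin F {x, y}` as sets, where `v = some x y h` (`y ` and `ψ` differ by elements of `F(x)`). `F` is algebraically closed (a polynomial over `F` has a root in `L`, which is algebraic over `F`, so in `F`). NoCM with `Ω := F`, `F := L`: `S = φ • v + c`, `c = 0` or `c` has coordinates in `F`: `IP F c`. DADD: `zd D c = zd D S - φ zd D v` (additive; so `zd D (φ • v) = φ zd D v`). `Q := c`. -/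
def STEPS : Prop :=
  ∀ (K L : Type) [Field K] [CharZero K] [Field L] [IsAlgClosed L] [DecidableEq L] [Algebra K L]
    (W : Affine K) [W.IsElliptic], NoCM W → ∀ (F : IntermediateField K L) (D : Derivation K L L),
    (∀ z : L, IsAlgebraic F z → z ∈ F) → (∀ z ∈ F, D z ∈ F) → ∀ v P : (WL L W).Point, v ≠ 0 →
    Transcendental F (xc v) → zd D v ∈ F → P ≠ 0 → zd D P ∈ F →
    IsAlgebraic (IntermediateField.adjoin K ((F : Set L) ∪ {xc v})) (xc P) →
    ∃ (N : ℕ) (φ : ℤ) (Q : (WL L W).Point), N ≠ 0 ∧ IP (F : Set L) Q ∧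
      zd D Q = N * zd D P - φ * zd D v

/-- **STEPN**: curves which are not isogenous. Hypotheses allowed: `Helper92.TN.TRC`, DALG; landed: `Helper60.T3.th_DADD`, `th_SUBF`.
PROOF. As STEPS; in (d) NonIsog with `Ω := F`, `F := L` gives `x' ∈ F`, so `S` has its coordinates in `F` (`ps S ^ 2 = B(x')`, `F` algebraically closed in `L`). `Q := S`, `N := r`. -/
def STEPN : Prop :=
  ∀ (K L : Type) [Field K] [CharZero K] [Field L] [IsAlgClosed L] [DecidableEq L] [Algebra K L]
    (W W' : Affine K) [W.IsElliptic] [W'.IsElliptic], NonIsog W W' →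
    ∀ (F : IntermediateField K L) (D : Derivation K L L),
    (∀ z : L, IsAlgebraic F z → z ∈ F) → (∀ z ∈ F, D z ∈ F) →
    ∀ (v : (WL L W).Point) (P : (WL L W').Point), v ≠ 0 → Transcendental F (xc v) →
    zd D v ∈ F → P ≠ 0 → zd D P ∈ F →
    IsAlgebraic (IntermediateField.adjoin K ((F : Set L) ∪ {xc v})) (xc P) →
    ∃ (N : ℕ) (Q : (WL L W').Point), N ≠ 0 ∧ IP (F : Set L) Q ∧ zd D Q = N * zd D P

/-- **TRL**: `zd D P` is a rational combination of the `zd D v_j`. Hypotheses allowed: DALG, STEPS, STEPN, `Helper92.TN.ACLA`; landed: `th_SUBF`.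
PROOF. Induction on a finite set `B` of indices: the statement for all `P` (`P = 0` is trivial: `zd D 0 = 0`) with `xc P` algebraic over `adjoin K (C ∪ {xc v_j : j ∈ B})`, with `n_j = 0` for `j ∉ B`. `B = ∅`: `xc P` is algebraic over `C`, so in `C`, `D (xc P) = 0`, `zd D P = 0`: `N = 1`, `n = 0`. `B = B' ∪ {b}`: `F := ` the intermediate field of the elements of `L` algebraic over `adjoin K (C ∪ {xc v_j : j ∈ B'})` (`acl K (..)`, ACLA). `F` is algebraically closed in `L`.
`D` maps `F` to `F`: DALG (4) for `S = C ∪ {xc v_j : j ∈ B'}`: `D z = 0` for `z ∈ C`, `D (xc v_j) = zd D v_j * ps v_j`, `zd D v_j ∈ C`, `ps v_j ^ 2 = B(xc v_j)`, so `ps v_j` is algebraic. If `xc v_b ∈ F` (algebraic over `F`) then `xc P` is algebraic over `F`, so in `F`: induction hypothesis for `B'`. Otherwise `xc v_b` is transcendental over `F`, `xc P` is algebraic over `adjoin K (F ∪ {xc v_b})`. If `cl b = c` (`subst`; `NoCM (E c)`): STEPS: `N₁`, `φ`, `Q`, `zd D Q = N₁ zd D P - φ zd D v_b ∈ C`,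
`IP F Q`. If `cl b ≠ c`: STEPN, `φ := 0`. If `Q = 0`: `N₁ zd D P = φ zd D v_b`. Otherwise the induction hypothesis for `Q` and `B'` (`xc Q ∈ F`): `N₂ zd D Q = ∑_(j ∈ B') n_j zd D v_j`, so `N₂ N₁ zd D P = N₂ φ zd D v_b + ∑_(j ∈ B') n_j zd D v_j`. -/
def TRL : Prop :=
  ∀ (K L : Type) [Field K] [CharZero K] [Field L] [IsAlgClosed L] [DecidableEq L] [Algebra K L]
    (ι : Type) [DecidableEq ι] (E : ι → Affine K), (∀ c, (E c).IsElliptic) →
    (∀ c c', c ≠ c' → NonIsog (E c) (E c')) → ∀ (τ : Type) [Fintype τ] [DecidableEq τ]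
    (cl : τ → ι) (v : ∀ j, (WL L (E (cl j))).Point) (C : IntermediateField K L)
    (D : Derivation K L L), (∀ z : L, IsAlgebraic C z → z ∈ C) → (∀ z ∈ C, D z = 0) →
    (∀ j, v j ≠ 0 ∧ ps (v j) ≠ 0) → (∀ j, zd D (v j) ∈ C) →
    ∀ (c : ι) (P : (WL L (E c)).Point), (∀ j, cl j = c → NoCM (E c)) → P ≠ 0 → zd D P ∈ C →
    IsAlgebraic (IntermediateField.adjoin K ((C : Set L) ∪ Set.range fun j => xc (v j))) (xc P) →
    ∃ (N : ℕ) (n : τ → ℤ), N ≠ 0 ∧ (∀ j, cl j ≠ c → n j = 0) ∧
      (N : L) * zd D P = ∑ j, (n j : L) * zd D (v j)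

/-! ## The count -/

/-- **MAXT**: a maximal independent subfamily. No hypotheses.
PROOF. Choose a maximal `T : Finset τ` with `(x_b)_(b ∈ T)` algebraically independent over `C` (`∅` has this property: `algebraicIndependent_empty_type`; `Finset.exists_maximal`-type lemma, `τ` finite). For `a ∉ T` the family of `T ∪ {a}` is not independent, so `x_a` is algebraic over `adjoin C (x '' T)` (`AlgebraicIndependent` and `insert`/`Option`: `algebraicIndependent_insert`-type lemma or the matroid), and this field is contained in `adjoin K (C ∪ x '' T)` as a set; for `a ∈ T` clear. -/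
def MAXT : Prop :=
  ∀ (K κ L : Type) [Field K] [Field κ] [Field L] [Algebra K κ] [Algebra κ L] [Algebra K L]
    [IsScalarTower K κ L] (τ : Type) [Fintype τ] [DecidableEq τ] (x : τ → L)
    (C : IntermediateField κ L), ∃ T : Finset τ,
      AlgebraicIndependent C (fun b : {b : τ // b ∈ T} => x b) ∧
      ∀ a, IsAlgebraic (IntermediateField.adjoin K ((C : Set L) ∪ x '' (T : Set τ))) (x a)

/-- **COUNT**: the number of independent constants. Hypotheses allowed: `Helper92.TN.ACLA`, `Helper92.TN.ACLB`.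
PROOF. Suppose `y` is independent over `κ`. `(x_b)_(b ∈ T)` is independent over `C`, so over `acl κ (range y) ≤ C` (`C` algebraically closed in `L`, `y_a ∈ C`; independence over a larger field implies independence over a smaller one, `AlgebraicIndependent.of_..`/`restrictScalars` with the tower). ACLB (3): `Sum.elim y (x_b)` is independent over `κ`: `|τ|` elements of `acl κ (range x)` (for the `y_a`: `C ≤ acl κ (range x)`). As `x` is not independent over `κ`, ACLB (1) gives `i` with `x_i ∈ acl κ (x_j : j ≠ i)`, so `acl κ (range x) ≤ acl κ (x '' {j ≠ i})` (ACLA), generated by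
at most `|τ| - 1` elements. ACLB (2): `|τ| ≤ |τ| - 1`, contradiction. -/
def COUNT : Prop :=
  ∀ (κ L : Type) [Field κ] [Field L] [Algebra κ L] (τ : Type) [Fintype τ] [DecidableEq τ]
    (x : τ → L), ¬ AlgebraicIndependent κ x → ∀ C : IntermediateField κ L,
    (∀ z : L, IsAlgebraic C z → z ∈ C) →
    (∀ z ∈ C, IsAlgebraic (IntermediateField.adjoin κ (Set.range x)) z) →
    ∀ T : Finset τ, AlgebraicIndependent C (fun b : {b : τ // b ∈ T} => x b) →
    ∀ y : {a : τ // a ∉ T} → L, (∀ a, y a ∈ C) → ¬ AlgebraicIndependent κ y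

/-! ## Combinations -/

/-- **ZCMB**: `zd D` and the coordinates of a combination. Landed: `Helper60.T3.th_DADD`, `th_SUBF`.
PROOF. `zd D` is additive (DADD), so an `AddMonoidHom`: `zd D (∑ ..) = ∑ zd D ..`, `zd D (n • P) = n * zd D P` (`map_zsmul`, `zsmul_eq_mul`), `zd D 0 = 0`; for `h : cl j = c`: `zd D (h ▸ w j) = zd D (w j)` (`subst h`, `c` is a variable after `generalize`/`cases h`). SUBF: sums, negatives and natural multiples of points with coordinates in `F` have coordinates in `F` (`zsmul`: `n = ± m`). -/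
def ZCMB : Prop :=
  ∀ (K L : Type) [Field K] [CharZero K] [Field L] [DecidableEq L] [Algebra K L] (ι : Type)
    [DecidableEq ι] (E : ι → Affine K), (∀ c, (E c).IsElliptic) → ∀ (τ : Type) [Fintype τ]
    (cl : τ → ι) (w : ∀ j, (WL L (E (cl j))).Point) (c : ι) (n : τ → ℤ),
    (∀ D : Derivation K L L,
      zd D (cmb (M := fun c => (WL L (E c)).Point) cl w c n) =
        ∑ j, if cl j = c then (n j : L) * zd D (w j) else 0) ∧
    ∀ F : IntermediateField K L, (∀ j, cl j = c → IP (F : Set L) (w j)) →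
      IP (F : Set L) (cmb (M := fun c => (WL L (E c)).Point) cl w c n)

/-- **CMBC**: combinations of combinations. No hypotheses.
PROOF. `cmb cl' u c m = ∑_i if h : cl' i = c then m_i • (h ▸ u_i)`, `u_i = cmb cl w (cl' i) (n i)`; for `h : cl' i = c` (`subst`) `m_i • cmb cl w c (n i) = ∑_j if h' : cl j = c then (m_i n_(i,j)) • (h' ▸ w j)`; exchange the sums, `Finset.sum_smul`. -/
def CMBC : Prop :=
  ∀ (ι τ τ' : Type) [DecidableEq ι] [Fintype τ] [Fintype τ'] (M : ι → Type)
    [∀ c, AddCommGroup (M c)] (cl : τ → ι) (w : ∀ j, M (cl j)) (cl' : τ' → ι)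
    (n : τ' → τ → ℤ) (c : ι) (m : τ' → ℤ),
    cmb cl' (fun i => cmb cl w (cl' i) (n i)) c m =
      cmb cl w c (fun j => ∑ i, if cl' i = c then m i * n i j else 0)

end

end Pool.Agent.Helper60.TG
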