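import Pool.Agent.Helper60.TG.Goals
import Pool.Agent.Helper42.TG.DefsR

/-!
# Project TG (MP_a41896_nt): goals for S_CLAIMR (coefficients in rings `R c` of endomorphisms; `R c = ℤ` allowed)

The versions of STEPS, TRL, ZCMB, CMBC (`TG/Goals.lean`) with `EndL` instead of `NoCM` and coefficients in `R c`.  DALG, STEPN, MAXT, COUNT are
used as in `TG/Goals.lean`.
-/

set_option autoImplicit false

open MvPolynomial

namespace Pool.Agent.Helper60.TG

open WeierstrassCurve
open Pool.Agent.Helper29.BL Pool.Agent.Helper92.Ru Pool.Agent.Helper42.SG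
open Pool.Agent.Helper60.T3 (WL IP zd)
open Pool.Agent.Helper42.TN (NonIsog)
open Pool.Agent.Helper42.TG (cmbR EndL)
open Pool.Agent.Helper92.TN (acl)

noncomputable section

/-- **STEPSR**: the same curve. Hypotheses allowed: `Helper92.TN.TRC`, DALG; landed: `Helper60.T3.th_DADD`, `th_SUBF` (`Pool/Agent/Helper60/T3/Ind.lean`).
PROOF. `G := adjoin K (F ∪ {xc v, ps v})`. (a) `ps v ≠ 0`: `ps v ^ 2 = B(xc v) ≠ 0` because `xc v` is transcendental over `F` (`Bf`, `ps_sq`). `D` maps `G` to `G` (DALG (3)): `D (xc v) = zd D v * ps v`, and `2 ψ D ψ = B'(x) D x`, `ψ = ps v`, `x = xc v`, so `D ψ = B'(x) zd D v / 2`. (b) `xc P` is algebraic over `G` (`adjoin` is monotone). TRC for `G`, `P` (`zd D P ∈ F ⊆ G`): `r ≠ 0`, `S`, `IP G S`, `zd D S = r zd D P`. (c) `F` is algebraically closed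
(a polynomial over `F` has a root in `L`, which is algebraic over `F`, so in `F`). The elements of `G` are in `adjoin F {xc v, ps v}`. EndL: `S = ac φ v + c`, `IP F c`. DADD: `zd D c = zd D S - zd D (ac φ v) = r zd D P - d φ zd D v`. `N := r`, `Q := c`. -/
def STEPSR : Prop :=
  ∀ (K L : Type) [Field K] [CharZero K] [Field L] [IsAlgClosed L] [DecidableEq L] [Algebra K L]
    (W : Affine K) [W.IsElliptic] (R : Type) [CommRing R]
    (ac : R →+* AddMonoid.End (WL L W).Point) (d : R →+* K), EndL W ac →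
    (∀ ρ (D : Derivation K L L) (P : (WL L W).Point),
      zd D (ac ρ P) = algebraMap K L (d ρ) * zd D P) →
    ∀ (F : IntermediateField K L) (D : Derivation K L L),
    (∀ z : L, IsAlgebraic F z → z ∈ F) → (∀ z ∈ F, D z ∈ F) → ∀ v P : (WL L W).Point, v ≠ 0 →
    Transcendental F (xc v) → zd D v ∈ F → P ≠ 0 → zd D P ∈ F →
    IsAlgebraic (IntermediateField.adjoin K ((F : Set L) ∪ {xc v})) (xc P) →
    ∃ (N : ℕ) (φ : R) (Q : (WL L W).Point), N ≠ 0 ∧ IP (F : Set L) Q ∧
      zd D Q = N * zd D P - algebraMap K L (d φ) * zd D v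

/-- **TRLR**: `zd D P` is a rational combination of the `zd D v_j`. Hypotheses allowed: DALG, STEPSR, STEPN, `Helper92.TN.ACLA`; landed: `th_SUBF`.
PROOF. Induction on a finite set `B` of indices: the statement for all `P` (`P = 0` is trivial: `zd D 0 = 0`) with `xc P` algebraic over `adjoin K (C ∪ {xc v_j : j ∈ B})`, with `n_j = 0` for `j ∉ B`. `B = ∅`: `xc P` is algebraic over `C`, so in `C`, `D (xc P) = 0`, `zd D P = 0`: `N = 1`, `n = 0`. `B = B' ∪ {b}`: `F := ` the intermediate field of the elements of `L` algebraic over `adjoin K (C ∪ {xc v_j : j ∈ B'})` (`acl K (..)`, ACLA). `F` is algebraically closed in `L`.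
`D` maps `F` to `F`: DALG (4) for `S = C ∪ {xc v_j : j ∈ B'}`: `D z = 0` for `z ∈ C`, `D (xc v_j) = zd D v_j * ps v_j`, `zd D v_j ∈ C`, `ps v_j ^ 2 = B(xc v_j)`, so `ps v_j` is algebraic. If `xc v_b ∈ F` (algebraic over `F`) then `xc P` is algebraic over `F`, so in `F`: induction hypothesis for `B'`. Otherwise `xc v_b` is transcendental over `F`, `xc P` is algebraic over `adjoin K (F ∪ {xc v_b})`. If `cl b = c` (`subst`; `EndL (E c) (ac c)`): STEPSR: `N₁`, `φ`, `Q`, `zd D Q = N₁ zd D P - d φ zd D v_b ∈ C`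
(constants of `K` are in `C`), `IP F Q`. If `cl b ≠ c`: STEPN, `φ := 0`. If `Q = 0`: `N₁ zd D P = d φ zd D v_b`. Otherwise the induction hypothesis for `Q` and `B'` (`xc Q ∈ F`): `N₂ zd D Q = ∑_(j ∈ B') d n_j zd D v_j`, so `N₂ N₁ zd D P = N₂ d φ zd D v_b + ∑_(j ∈ B') d n_j zd D v_j` (`N₂ • φ ∈ R c`). -/
def TRLR : Prop :=
  ∀ (K L : Type) [Field K] [CharZero K] [Field L] [IsAlgClosed L] [DecidableEq L] [Algebra K L]
    (ι : Type) [DecidableEq ι] (E : ι → Affine K), (∀ c, (E c).IsElliptic) →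
    (∀ c c', c ≠ c' → NonIsog (E c) (E c')) →
    ∀ (R : ι → Type) [∀ c, CommRing (R c)] (ac : ∀ c, R c →+* AddMonoid.End (WL L (E c)).Point)
      (d : ∀ c, R c →+* K),
    (∀ c ρ (D : Derivation K L L) (P : (WL L (E c)).Point),
        zd D (ac c ρ P) = algebraMap K L (d c ρ) * zd D P) →
    ∀ (τ : Type) [Fintype τ] [DecidableEq τ]
    (cl : τ → ι) (v : ∀ j, (WL L (E (cl j))).Point) (C : IntermediateField K L)
    (D : Derivation K L L), (∀ z : L, IsAlgebraic C z → z ∈ C) → (∀ z ∈ C, D z = 0) →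
    (∀ j, v j ≠ 0 ∧ ps (v j) ≠ 0) → (∀ j, zd D (v j) ∈ C) →
    ∀ (c : ι) (P : (WL L (E c)).Point), (∀ j, cl j = c → EndL (E c) (ac c)) → P ≠ 0 →
    zd D P ∈ C →
    IsAlgebraic (IntermediateField.adjoin K ((C : Set L) ∪ Set.range fun j => xc (v j))) (xc P) →
    ∃ (N : ℕ) (n : τ → R c), N ≠ 0 ∧ (∀ j, cl j ≠ c → n j = 0) ∧
      (N : L) * zd D P = ∑ j, algebraMap K L (d c (n j)) * zd D (v j)

/-- **ZCMBR**: `zd D` and the coordinates of a combination. Landed: `Helper60.T3.th_DADD`, `th_SUBF`.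
PROOF. `zd D` is additive (DADD), so an `AddMonoidHom`: `zd D (∑ ..) = ∑ zd D ..`, `zd D (ac ρ P) = d ρ * zd D P` (hypothesis), `zd D 0 = 0`; for `h : cl j = c`: `zd D (h ▸ w j) = zd D (w j)` (`subst h`; prove it as a lemma for a variable `c`). SUBF: sums of points with coordinates in `F` have coordinates in `F`. -/
def ZCMBR : Prop :=
  ∀ (K L : Type) [Field K] [CharZero K] [Field L] [DecidableEq L] [Algebra K L] (ι : Type)
    [DecidableEq ι] (E : ι → Affine K), (∀ c, (E c).IsElliptic) →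
    ∀ (R : ι → Type) [∀ c, CommRing (R c)] (ac : ∀ c, R c →+* AddMonoid.End (WL L (E c)).Point)
      (d : ∀ c, R c →+* K),
    (∀ c ρ (D : Derivation K L L) (P : (WL L (E c)).Point),
        zd D (ac c ρ P) = algebraMap K L (d c ρ) * zd D P) →
    (∀ c ρ (F : IntermediateField K L) (P : (WL L (E c)).Point), IP (F : Set L) P →
        IP (F : Set L) (ac c ρ P)) →
    ∀ (τ : Type) [Fintype τ]
    (cl : τ → ι) (w : ∀ j, (WL L (E (cl j))).Point) (c : ι) (n : τ → R c),
    (∀ D : Derivation K L L,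
      zd D (cmbR (M := fun c => (WL L (E c)).Point) ac cl w c n) =
        ∑ j, if cl j = c then algebraMap K L (d c (n j)) * zd D (w j) else 0) ∧
    ∀ F : IntermediateField K L, (∀ j, cl j = c → IP (F : Set L) (w j)) →
      IP (F : Set L) (cmbR (M := fun c => (WL L (E c)).Point) ac cl w c n)

/-- **CMBCR**: combinations of combinations. No hypotheses.
PROOF. `cmbR cl' u c m = ∑_i if h : cl' i = c then ac c m_i (h ▸ u_i)`, `u_i = cmbR cl w (cl' i) (n i)`; for `h : cl' i = c` (`subst`): `ac c m_i (cmbR cl w c (n i)) = ∑_j if h' : cl j = c then ac c (m_i * n_(i,j)) (h' ▸ w j)` (`map_sum`, `map_mul`); exchange the sums (`Finset.sum_comm`, `map_sum` of `ac c`). -/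
def CMBCR : Prop :=
  ∀ (ι τ τ' : Type) [DecidableEq ι] [Fintype τ] [Fintype τ'] (R M : ι → Type)
    [∀ c, CommRing (R c)] [∀ c, AddCommGroup (M c)] (ac : ∀ c, R c →+* AddMonoid.End (M c))
    (cl : τ → ι) (w : ∀ j, M (cl j)) (cl' : τ' → ι)
    (n : ∀ i, τ → R (cl' i)) (c : ι) (m : τ' → R c),
    cmbR ac cl' (fun i => cmbR ac cl w (cl' i) (n i)) c m =
      cmbR ac cl w c (fun j => ∑ i, if h : cl' i = c then m i * (h ▸ n i j : R c) else 0)

end

end Pool.Agent.Helper60.TG
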