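import Pool.Agent.Helper19.TN.EndD
import Pool.Agent.Helper42.TG.DefsR

/-!
# Project TG (MP_a41896_nt): END with rings of endomorphisms, part A (good sequences, moves)

`Good U H c`: the sequence `c` is generic, aligned, of height `→ ∞` and near a centre of codimension `≥ 2`.  A `Move` is an endomorphism of
`∏ W_i (K)` which is given by algebraic relations; it maps good sequences to good sequences.
-/

set_option autoImplicit false

open MvPolynomial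

namespace Pool.Agent.Helper60.TG

open WeierstrassCurve Height
open Pool.Agent.Helper29.BL Pool.Agent.Helper42.SG
open Pool.Agent.Helper92.Ru hiding cmb
open Pool.Agent.Helper5.UN (CodimGT cH)
open Pool.Agent.Helper60.HC (Lo nrs xs)
open Pool.Agent.Helper19.TN (UD Pr LowU)

noncomputable section

section defs

variable {K : Type} [Field K] [NumberField K] [DecidableEq K] {σ : Type} [Fintype σ]
  {W : σ → Affine K}

/-- good sequences -/
structure Good (U : Ultrafilter ℕ) (H : ∀ i, (W i).Point → ℝ) (c : ℕ → ∀ i, (W i).Point) :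
    Prop where
  ud : UD U (nrs H) c
  cen : ∃ (D : ℕ) (J : Type) (_ : Fintype J) (f : J → MvPolynomial σ K) (ε : ℝ), 0 < ε ∧
    (∀ j i, degreeOf i (f j) ≤ D) ∧ CodimGT D f 1 ∧ (∀ k, ∃ t, eval (xs (c k)) (f t) ≠ 0) ∧
    ∀ k, ε * nrs H (c k) ≤ cH D f (xs (c k))

/-- moves -/
structure Move (H : ∀ i, (W i).Point → ℝ) (μ : (∀ i, (W i).Point) →+ (∀ i, (W i).Point)) :
    Prop where
  up : ∃ C : ℝ, 0 < C ∧ ∀ z, nrs H (μ z) ≤ C * nrs H z
  dn : ∃ C : ℝ, 0 < C ∧ ∀ z, nrs H z ≤ C * nrs H (μ z)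
  gen : ∀ Z' : MvPolynomial σ K, Z' ≠ 0 → ∃ Z : MvPolynomial σ K, Z ≠ 0 ∧
    ∀ z : ∀ i, (W i).Point, (∀ i, z i ≠ 0 ∧ ps (z i) ≠ 0) → eval (xs z) Z ≠ 0 →
      (∀ i, μ z i ≠ 0 ∧ ps (μ z i) ≠ 0) ∧ eval (xs (μ z)) Z' ≠ 0
  trf : ∀ (D : ℕ) (J : Type) [Fintype J] (f : J → MvPolynomial σ K),
    (∀ j i, degreeOf i (f j) ≤ D) → CodimGT D f 1 →
    ∃ (D' : ℕ) (J' : Type) (_ : Fintype J') (f' : J' → MvPolynomial σ K) (C : ℝ)
      (G : MvPolynomial σ K), (∀ j i, degreeOf i (f' j) ≤ D') ∧ CodimGT D' f' 1 ∧ G ≠ 0 ∧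
      ∀ z : ∀ i, (W i).Point, (∀ i, z i ≠ 0 ∧ ps (z i) ≠ 0) → eval (xs z) G ≠ 0 →
        (∃ j, eval (xs (μ z)) (f' j) ≠ 0) ∧ cH D f (xs z) ≤ cH D' f' (xs (μ z)) + C

end defs

/-- a polynomial which is nonzero only outside the centre -/
theorem off_of (K : Type) [Field K] [NumberField K] (σ : Type) [Fintype σ] [DecidableEq σ]
    (D : ℕ) (J : Type) [Fintype J] (f : J → MvPolynomial σ K)
    (hf : ∀ j i, degreeOf i (f j) ≤ D) (hc : CodimGT D f 1) :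
    ∃ P0 : MvPolynomial σ K, P0 ≠ 0 ∧ ∀ x : σ → K, eval x P0 ≠ 0 → ∃ t, eval x (f t) ≠ 0 := by
  classical
  obtain ⟨E, B, -, -, hJ⟩ := Pool.Agent.Helper60.HC.th_ELOC2 K σ 1 D J f hf hc
  obtain ⟨P0, hP0, -, -, hP0l⟩ := hJ Finset.univ (by rw [Finset.card_univ]; omega)
  refine ⟨P0, hP0, ?_⟩
  intro x hx
  by_contra hno
  push Not at hno
  obtain ⟨v⟩ : Nonempty (AbsoluteValue K ℝ) := ⟨AbsoluteValue.trivial⟩
  have h1 := hP0l v x
  have h2 : (⨆ j, v (eval x (f j))) = 0 := by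
    have : (fun j => v (eval x (f j))) = fun _ => 0 := by
      funext j
      rw [hno j, map_zero]
    rw [this]
    exact Real.iSup_const_zero
  rw [h2, mul_zero] at h1
  have h3 : 0 < v (eval x P0) := v.pos hx
  have h4 : 0 < (∏ i, Mv v (x i)) ^ D := by
    refine pow_pos (Finset.prod_pos fun i _ => ?_) _
    unfold Mv
    exact lt_of_lt_of_le one_pos (le_max_left _ _)
  nlinarith [mul_pos h3 h4]

variable {K : Type} [Field K] [NumberField K] [DecidableEq K] {σ : Type} [Fintype σ]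
  {W : σ → Affine K}

theorem Move.id {H : ∀ i, (W i).Point → ℝ} [DecidableEq σ] : Move H (AddMonoidHom.id _) := by
  refine ⟨⟨1, one_pos, fun z => by simp⟩, ⟨1, one_pos, fun z => by simp⟩, fun Z' hZ' =>
    ⟨Z', hZ', fun z hz h => ⟨hz, h⟩⟩, ?_⟩
  intro D J _ f hf hc
  obtain ⟨P0, hP0, h⟩ := off_of K σ D J f hf hc
  exact ⟨D, J, inferInstance, f, 0, P0, hf, hc, hP0, fun z _ hG => ⟨h _ hG, by simp⟩⟩

theorem Move.comp {H : ∀ i, (W i).Point → ℝ} {μ ν : (∀ i, (W i).Point) →+ (∀ i, (W i).Point)}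
    (hν : Move H ν) (hμ : Move H μ) : Move H (ν.comp μ) := by
  obtain ⟨⟨C1, hC1, h1⟩, ⟨C2, hC2, h2⟩, h3, h4⟩ := hμ
  obtain ⟨⟨C1', hC1', h1'⟩, ⟨C2', hC2', h2'⟩, h3', h4'⟩ := hν
  refine ⟨⟨C1' * C1, by positivity, fun z => ?_⟩, ⟨C2 * C2', by positivity, fun z => ?_⟩, ?_, ?_⟩
  · have := mul_le_mul_of_nonneg_left (h1 z) hC1'.le
    calc nrs H (ν (μ z)) ≤ C1' * nrs H (μ z) := h1' _
      _ ≤ C1' * (C1 * nrs H z) := this
      _ = C1' * C1 * nrs H z := by ring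
  · have := mul_le_mul_of_nonneg_left (h2' (μ z)) hC2.le
    calc nrs H z ≤ C2 * nrs H (μ z) := h2 _
      _ ≤ C2 * (C2' * nrs H (ν (μ z))) := this
      _ = C2 * C2' * nrs H (ν (μ z)) := by ring
  · intro Z' hZ'
    obtain ⟨Z1, hZ1, hh1⟩ := h3' Z' hZ'
    obtain ⟨Z, hZ, hh⟩ := h3 Z1 hZ1
    refine ⟨Z, hZ, fun z hz hzZ => ?_⟩
    obtain ⟨a1, a2⟩ := hh z hz hzZ
    exact hh1 _ a1 a2
  · intro D J _ f hf hc
    obtain ⟨D1, J1, i1, f1, c1, G1, a1, a2, a3, a4⟩ := h4 D J f hf hc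
    obtain ⟨D2, J2, i2, f2, c2, G2, b1, b2, b3, b4⟩ := @h4' D1 J1 i1 f1 a1 a2
    obtain ⟨G3, hG3, hh⟩ := h3 G2 b3
    refine ⟨D2, J2, i2, f2, c2 + c1, G1 * G3, b1, b2, mul_ne_zero a3 hG3, fun z hz hG => ?_⟩
    rw [map_mul] at hG
    obtain ⟨e1, e2⟩ := hh z hz (right_ne_zero_of_mul hG)
    obtain ⟨g1, g2⟩ := a4 z hz (left_ne_zero_of_mul hG)
    obtain ⟨k1, k2⟩ := b4 _ e1 e2
    refine ⟨k1, ?_⟩
    show cH D f (xs z) ≤ cH D2 f2 (xs (ν (μ z))) + (c2 + c1)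
    linarith

/-- moves map good sequences to good sequences (after a change on a null set) -/
theorem Move.good {U : Ultrafilter ℕ} {H : ∀ i, (W i).Point → ℝ} (hQ : IsQuad (nrs H))
    {μ : (∀ i, (W i).Point) →+ (∀ i, (W i).Point)} (hμ : Move H μ)
    {c : ℕ → ∀ i, (W i).Point} (hc : Good U H c) :
    ∃ c' : ℕ → ∀ i, (W i).Point, Good U H c' ∧ ∀ᶠ k in (U : Filter ℕ), c' k = μ (c k) := by
  classical
  obtain ⟨⟨C1, hC1, h1⟩, ⟨C2, hC2, h2⟩, h3, h4⟩ := hμ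
  obtain ⟨hU, D, J, iJ, f, ε, hε, hf, hcd, hoff, hex⟩ := hc
  obtain ⟨D', J', iJ', f', C, G, a1, a2, a3, a4⟩ := @h4 D J iJ f hf hcd
  set ε' := ε / (2 * C1) with hε'
  have hε'0 : 0 < ε' := by positivity
  set A : (∀ i, (W i).Point) → Prop := fun z => (∀ i, z i ≠ 0 ∧ ps (z i) ≠ 0) ∧
    (∃ t, eval (xs z) (f' t) ≠ 0) ∧ ε' * nrs H z ≤ cH D' f' (xs z) with hA
  have hNn : ∀ z, 0 ≤ nrs H z := hQ.nonneg
  have hAe : ∀ᶠ k in (U : Filter ℕ), A (μ (c k)) := by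
    obtain ⟨Z1, hZ1, hh1⟩ := h3 1 one_ne_zero
    filter_upwards [hU.gen Z1 hZ1, hU.gen G a3, hU.big (2 * |C| / ε)] with k k1 k2 k3
    obtain ⟨b1, -⟩ := hh1 (c k) (hU.nd k) k1
    obtain ⟨b2, b3⟩ := a4 (c k) (hU.nd k) k2
    refine ⟨b1, b2, ?_⟩
    have e1 := hex k
    have e2 : |C| ≤ ε / 2 * nrs H (c k) := by
      rw [div_le_iff₀ hε] at k3
      linarith
    have e3 := le_abs_self C
    have e4 : ε' * nrs H (μ (c k)) ≤ ε / 2 * nrs H (c k) := by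
      have e5 := mul_le_mul_of_nonneg_left (h1 (c k)) hε'0.le
      have e6 : ε' * (C1 * nrs H (c k)) = ε / 2 * nrs H (c k) := by
        rw [hε']
        field_simp
      linarith
    linarith
  obtain ⟨k0, hk0⟩ := hAe.exists
  refine ⟨fun k => if A (μ (c k)) then μ (c k) else μ (c k0), ?_, ?_⟩
  swap
  · filter_upwards [hAe] with k hk
    rw [if_pos hk]
  have hAc : ∀ k, A (if A (μ (c k)) then μ (c k) else μ (c k0)) := by
    intro k
    split_ifs with h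
    · exact h
    · exact hk0
  refine ⟨⟨fun k => (hAc k).1, ?_, ?_, ?_⟩, D', J', iJ', f', ε', hε'0, a1, a2,
    fun k => (hAc k).2.1, fun k => (hAc k).2.2⟩
  · intro Z' hZ'
    obtain ⟨Z, hZ, hh⟩ := h3 Z' hZ'
    filter_upwards [hAe, hU.gen Z hZ] with k k1 k2
    rw [if_pos k1]
    exact (hh (c k) (hU.nd k) k2).2
  · intro R
    filter_upwards [hAe, hU.big (C2 * |R|)] with k k1 k2
    rw [if_pos k1]
    have e1 := h2 (c k)
    have e2 : |R| ≤ nrs H (μ (c k)) := le_of_mul_le_mul_left (k2.trans e1) hC2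
    exact (le_abs_self R).trans e2
  · intro θ K0 hθ
    set m := max 1 (C1 * C2) with hm
    have hm1 : 1 ≤ m := le_max_left _ _
    have hmC : C1 * C2 ≤ m := le_max_right _ _
    filter_upwards [hAe, hU.al (θ / m) (|K0| * m) (by positivity)] with i i1 i2
    filter_upwards [hAe, i2] with j j1 j2
    rw [if_pos i1, if_pos j1]
    obtain ⟨p1, e, p2⟩ := j2
    constructor
    · have e1 := h1 (c i)
      have e2 := h2 (c j)
      have e3 : |K0| * (C1 * C2) * nrs H (c i) ≤ |K0| * m * nrs H (c i) := by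
        refine mul_le_mul_of_nonneg_right ?_ (hNn _)
        exact mul_le_mul_of_nonneg_left hmC (abs_nonneg _)
      have e4 : C2 * (|K0| * (C1 * nrs H (c i))) ≤ C2 * nrs H (μ (c j)) := by
        calc C2 * (|K0| * (C1 * nrs H (c i))) = |K0| * (C1 * C2) * nrs H (c i) := by ring
          _ ≤ C2 * nrs H (μ (c j)) := e3.trans (p1.trans e2)
      have e5 := le_of_mul_le_mul_left e4 hC2
      have e6 : |K0| * nrs H (μ (c i)) ≤ |K0| * (C1 * nrs H (c i)) :=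
        mul_le_mul_of_nonneg_left e1 (abs_nonneg _)
      have e7 : K0 * nrs H (μ (c i)) ≤ |K0| * nrs H (μ (c i)) :=
        mul_le_mul_of_nonneg_right (le_abs_self K0) (hNn _)
      linarith
    · refine ⟨e, ?_⟩
      have e1 : (2 ^ e) • μ (c i) - μ (c j) = μ ((2 ^ e) • c i - c j) := by
        rw [map_sub, map_nsmul]
      rw [e1]
      have e2 := h1 ((2 ^ e) • c i - c j)
      have e3 := h2 (c j)
      have e4 : C1 * nrs H ((2 ^ e) • c i - c j) ≤ C1 * ((θ / m) ^ 2 * nrs H (c j)) :=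
        mul_le_mul_of_nonneg_left p2 hC1.le
      have e5 : C1 * ((θ / m) ^ 2 * nrs H (c j)) ≤
          C1 * ((θ / m) ^ 2 * (C2 * nrs H (μ (c j)))) :=
        mul_le_mul_of_nonneg_left (mul_le_mul_of_nonneg_left e3 (by positivity)) hC1.le
      have e6 : C1 * ((θ / m) ^ 2 * (C2 * nrs H (μ (c j)))) =
          (C1 * C2) * ((θ / m) ^ 2) * nrs H (μ (c j)) := by ring
      have e7 : (C1 * C2) * ((θ / m) ^ 2) ≤ θ ^ 2 := by
        rw [div_pow, ← mul_div_assoc, div_le_iff₀ (by positivity)]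
        have : C1 * C2 ≤ m ^ 2 := by nlinarith
        nlinarith [sq_nonneg θ]
      have e8 := mul_le_mul_of_nonneg_right e7 (hNn (μ (c j)))
      linarith

end

end Pool.Agent.Helper60.TG
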