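import Pool.Agent.Helper60.TG.GoodA
import Pool.Agent.Helper19.TG.PRa

/-!
# Project TG (MP_a41896_nt): END with rings of endomorphisms, part B (the contradiction; existence of good sequences)
-/

set_option autoImplicit false

open MvPolynomial

namespace Pool.Agent.Helper60.TG

open WeierstrassCurve Height
open Pool.Agent.Helper29.BL Pool.Agent.Helper42.SG
open Pool.Agent.Helper92.Ru hiding cmb
open Pool.Agent.Helper5.UN (CodimGT cH)
open Pool.Agent.Helper60.HC (Lo nrs xs Bq eval_Bq Bq_ne_zero)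
open Pool.Agent.Helper19.TN (UD Pr LowU MAINW p1_step lo_mn)
open Pool.Agent.Helper42.TG (Free slowP)
open Pool.Agent.Helper19.PM

noncomputable section

variable {K : Type} [Field K] [NumberField K] [DecidableEq K] {σ : Type} [Fintype σ]
  [DecidableEq σ] {W : σ → Affine K}

/-- a good sequence, slow on `S`, has a relation of slow height between the other coordinates -/
theorem coreG (hP : S_P1S) (hE : EMS) (hW : ∀ i, (W i).IsElliptic)
    {H : ∀ i, (W i).Point → ℝ} {c₀ : ℝ} (hH : ∀ i, CanH (W i) (H i) c₀) (hQ : IsQuad (nrs H))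
    {U : Ultrafilter ℕ} {y : ℕ → ∀ i, (W i).Point} (hg : Good U H y) (S : Finset σ)
    (hS : ∀ a ∈ S, ∀ δ : ℝ, 0 < δ → ∀ᶠ j in (U : Filter ℕ),
      logHeight₁ (xs (y j) a) ≤ δ * nrs H (y j))
    (hfree : Free U (fun k => nrs H (y k)) (fun (a : {i // i ∉ S}) k => xs (y k) a.1)) :
    False := by
  classical
  obtain ⟨hU, D, ι, iι, f, ε, hε, hf, hc, hoff, hex⟩ := hg
  have hN : ∀ z, 0 ≤ nrs H z := hQ.nonneg
  rcases Nat.eq_zero_or_pos D with hD0 | hD
  · subst hD0
    obtain ⟨cB, hcB, hB⟩ := Pool.Agent.Helper60.HC.th_CHB K σ 0 ι f hf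
    obtain ⟨j, hj⟩ := (hU.big ((cB + 1) / ε)).exists
    have h1 := (hB (xs (y j)) (hoff j)).1
    rw [Nat.cast_zero, zero_mul, zero_add] at h1
    have h2 := hex j
    rw [div_le_iff₀ hε] at hj
    linarith
  by_cases hcard : 2 ≤ Fintype.card {i // i ∉ S}
  · obtain ⟨D', C', hlow⟩ := p1_step hP hW hH hQ hf hc hD hε hU hoff hex S hS hcard
    obtain ⟨η, hη, hfr⟩ := hfree D'
    obtain ⟨i, hi1, hi2⟩ := (hlow.and (hU.big (|C'| / η + 1))).exists
    obtain ⟨j, hj1, hj2⟩ := (hi1.and hfr).exists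
    refine hj2 (Pool.Agent.Helper19.TG.lo_pull (fun a : {i // i ∉ S} => a.1)
      Subtype.val_injective (fun i hi => ⟨⟨i, (Finset.mem_sdiff.1 hi).2⟩, rfl⟩)
      (lo_mn hj1 subset_rfl le_rfl ?_))
    have hNi : 0 < nrs H (y i) := by
      have : 0 ≤ |C'| / η := by positivity
      linarith
    rw [← mul_div_assoc, div_le_iff₀ hNi]
    have h3 : C' ≤ η * nrs H (y i) := by
      have h4 : |C'| / η ≤ nrs H (y i) := by linarith
      rw [div_le_iff₀ hη] at h4
      have := le_abs_self C'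
      linarith
    have h5 := mul_le_mul_of_nonneg_right h3 (hN (y j))
    calc C' * nrs H (y j) ≤ η * nrs H (y i) * nrs H (y j) := h5
      _ = η * nrs H (y j) * nrs H (y i) := by ring
  · have hc2 : Fintype.card σ ≤ S.card + 1 := by
      have h1 : Fintype.card {i // i ∉ S} = Fintype.card σ - S.card := by
        rw [Fintype.card_subtype_compl]
        simp
      have h2 : S.card ≤ Fintype.card σ := Finset.card_le_univ S
      omega
    obtain ⟨Δ, C, hΔ, hC, hb⟩ := hE K σ 1 D ι f hf hc S hc2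
    set δ := ε / (2 * (C * S.card + 1)) with hδ
    have hδ0 : 0 < δ := by positivity
    have hsl : ∀ᶠ j in (U : Filter ℕ), ∀ a ∈ S, logHeight₁ (xs (y j) a) ≤ δ * nrs H (y j) := by
      rw [Finset.eventually_all]
      exact fun a ha => hS a ha δ hδ0
    obtain ⟨j, ⟨hj1, hj2⟩, hj3⟩ := ((hsl.and (hU.gen Δ hΔ)).and (hU.big (2 * C / ε + 1))).exists
    have h1 := hb _ hj2
    have h2 := hex j
    have hN0 : 0 ≤ nrs H (y j) := hN _
    have h3 : ∑ i ∈ S, logHeight₁ (xs (y j) i) ≤ S.card * (δ * nrs H (y j)) := by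
      have := Finset.sum_le_sum hj1
      rwa [Finset.sum_const, nsmul_eq_mul] at this
    have h4 : C * (S.card * (δ * nrs H (y j))) ≤ ε / 2 * nrs H (y j) := by
      have h5 : C * S.card * δ ≤ ε / 2 := by
        have h6 : δ * (2 * (C * S.card + 1)) = ε := by
          rw [hδ]
          field_simp
        nlinarith
      have := mul_le_mul_of_nonneg_right h5 hN0
      linarith
    have h5 := mul_le_mul_of_nonneg_left h3 hC
    have h6 : ε / 2 * (2 * C / ε + 1) ≤ ε / 2 * nrs H (y j) :=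
      mul_le_mul_of_nonneg_left hj3 (half_pos hε).le
    have h7 : ε / 2 * (2 * C / ε + 1) = C + ε / 2 := by
      field_simp
    linarith

/-- if the theorem is false there is a good sequence -/
theorem exists_good {H : ∀ i, (W i).Point → ℝ} {c₀ : ℝ} (hH : ∀ i, CanH (W i) (H i) c₀)
    (hc0 : 0 ≤ c₀) (h0 : ¬ MAINW K σ W) :
    ∃ (U : Ultrafilter ℕ) (y : ℕ → ∀ i, (W i).Point), Good U H y := by
  classical
  have hQ : IsQuad (nrs H) :=
    Pool.Agent.Helper60.HC.th_QPI.1 σ (fun i => (W i).Point) H fun i => (hH i).quad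
  by_contra hgood
  apply h0
  intro Γ hΓ D ι _ f hf hc ε hε
  have hxn : ∀ z : ∀ i, (W i).Point, 0 ≤ ∑ i, hx (z i) := fun z =>
    Finset.sum_nonneg fun i _ => by
      unfold hx
      exact Height.zero_le_logHeight₁ _
  obtain ⟨P0, hP0, hoffP⟩ := off_of K σ D ι f hf hc
  obtain ⟨cB, hcB, hB⟩ := Pool.Agent.Helper60.HC.th_CHB K σ D ι f hf
  have hh1 : ∀ z : ∀ i, (W i).Point, ∑ i, hx (z i) ≤ nrs H z + Fintype.card σ * c₀ := by
    intro z
    have : ∑ i, hx (z i) ≤ ∑ i, (H i (z i) + c₀) := Finset.sum_le_sum fun i _ => by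
      have := abs_le.1 ((hH i).near (z i))
      linarith
    rw [Finset.sum_add_distrib, Finset.sum_const, Finset.card_univ, nsmul_eq_mul] at this
    exact this
  have hh2 : ∀ z : ∀ i, (W i).Point, nrs H z ≤ ∑ i, hx (z i) + Fintype.card σ * c₀ := by
    intro z
    have : nrs H z ≤ ∑ i, (hx (z i) + c₀) := Finset.sum_le_sum fun i _ => by
      have := abs_le.1 ((hH i).near (z i))
      linarith
    rw [Finset.sum_add_distrib, Finset.sum_const, Finset.card_univ, nsmul_eq_mul] at this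
    exact this
  have hcB' : ∀ z : ∀ i, (W i).Point, eval (xs z) P0 ≠ 0 →
      cH D f (xs z) ≤ D * ∑ i, hx (z i) + cB := fun z hz => (hB (xs z) (hoffP _ hz)).1
  by_contra hno
  push Not at hno
  have hn0 : (0 : ℝ) ≤ Fintype.card σ * c₀ := by positivity
  obtain ⟨y, U, hy, hgen, hbig, hal⟩ := Pool.Agent.Helper12.T3.ULT.t
    Pool.Agent.Helper54.SGM.t_CLS K σ (∀ i, (W i).Point) (AddSubgroup.pi Set.univ Γ)
    (Pool.Agent.Helper60.HC.th_QPI.2 σ (fun i => (W i).Point) Γ hΓ) (nrs H) hQ xs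
    (fun z => (∀ i, z i ≠ 0 ∧ ps (z i) ≠ 0) ∧ (∃ t, eval (xs z) (f t) ≠ 0) ∧
      ε * nrs H z ≤ cH D f (xs z)) (by
      intro Z R hZ
      set Z' := Z * P0 * ∏ i, Bq W i with hZ'
      have hZ'0 : Z' ≠ 0 := mul_ne_zero (mul_ne_zero hZ hP0)
        (Finset.prod_ne_zero_iff.2 fun i _ => Bq_ne_zero W i)
      set c' := ε * (Fintype.card σ * c₀) + (D * (|R| + Fintype.card σ * c₀) + cB) with hc'
      have hc'0 : 0 ≤ c' := by positivity
      obtain ⟨z, hz1, hz2, hz3, hz4⟩ := hno Z' c' hZ'0 hc'0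
      rw [hZ', map_mul, map_mul, map_prod] at hz3
      have a1 := left_ne_zero_of_mul hz3
      have a2 := right_ne_zero_of_mul hz3
      have a3 := left_ne_zero_of_mul a1
      have a4 := right_ne_zero_of_mul a1
      have h1 := hh1 z
      have h2 := hh2 z
      refine ⟨z, ?_, ⟨fun i => ⟨hz2 i, fun h0 => ?_⟩, hoffP _ a4, ?_⟩, a3, ?_⟩
      · rw [AddSubgroup.mem_pi]
        exact fun i _ => hz1 i
      · have := (Pool.Agent.Helper12.SGB.th_EUP K (W i)).1 (z i) (hz2 i)
        rw [h0] at this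
        have h5 := Finset.prod_ne_zero_iff.1 a2 i (Finset.mem_univ _)
        rw [eval_Bq] at h5
        exact h5 (by
          show Bf (W i) (xc (z i)) = 0
          rw [← this]; ring)
      · have h3 := mul_le_mul_of_nonneg_left h2 hε.le
        have h4 : 0 ≤ (D : ℝ) * (|R| + Fintype.card σ * c₀) + cB := by positivity
        linarith
      · by_contra hlt
        push Not at hlt
        have h3 := hcB' z a4
        have h4 : (D : ℝ) * ∑ i, hx (z i) ≤ D * (|R| + Fintype.card σ * c₀) := by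
          refine mul_le_mul_of_nonneg_left ?_ (Nat.cast_nonneg _)
          have := le_abs_self R
          linarith
        have h5 : 0 ≤ ε * ∑ i, hx (z i) := mul_nonneg hε.le (hxn z)
        have h6 : 0 ≤ ε * (Fintype.card σ * c₀) := mul_nonneg hε.le hn0
        linarith)
  have hUD : UD U (nrs H) y := ⟨fun k => (hy k).2.1, hgen, hbig, hal⟩
  exact hgood ⟨U, y, hUD, D, ι, inferInstance, f, ε, hε, hf, hc, fun k => (hy k).2.2.1,
    fun k => (hy k).2.2.2⟩

end

end Pool.Agent.Helper60.TG
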