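import Pool.Agent.Helper60.TG.GoodB
import Pool.Agent.Helper42.TG.DefsM
import Pool.Agent.Helper68.TG.GoalsM

/-!
# Project TG (MP_a41896_nt): END with rings of endomorphisms, part C (the two moves `z_b ↦ z_b + z_a` and `z_b ↦ ρ z_b`)
-/

set_option autoImplicit false

open MvPolynomial

namespace Pool.Agent.Helper60.TG

open WeierstrassCurve Height
open Pool.Agent.Helper29.BL Pool.Agent.Helper42.SG
open Pool.Agent.Helper92.Ru hiding cmb
open Pool.Agent.Helper5.UN (CodimGT cH)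
open Pool.Agent.Helper60.HC (Lo nrs xs Bq eval_Bq Bq_ne_zero)
open Pool.Agent.Helper60.T3 (WL)
open Pool.Agent.Helper42.TG (RAct acK HTR)
open Pool.Agent.Helper3.TG (TH TRF GENP THX)
open Pool.Agent.Helper68.TG.M (PairM MTRF MGENP)

noncomputable section

/-! ## Transport -/

section tr

variable {K : Type} [Field K] [DecidableEq K]

/-- transport of points -/
def tr {w w' : Affine K} (h : w = w') : w.Point →+ w'.Point where
  toFun P := h ▸ P
  map_zero' := by subst h; rfl
  map_add' P Q := by subst h; rfl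

theorem tr_rfl {w : Affine K} (P : w.Point) : tr (rfl : w = w) P = P := rfl

theorem xc_tr {w w' : Affine K} (h : w = w') (P : w.Point) : xc (tr h P) = xc P := by
  subst h; rfl

theorem tr_ne_zero {w w' : Affine K} (h : w = w') {P : w.Point} (hP : P ≠ 0) :
    tr h P ≠ 0 := by
  subst h; exact hP

end tr

/-- the values at all points but `b`, and at `b` -/
def updH {G : Type} [DecidableEq G] {M : G → Type} [∀ i, AddCommGroup (M i)] (b : G)
    (φ : (∀ i, M i) →+ M b) : (∀ i, M i) →+ (∀ i, M i) where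
  toFun z := Function.update z b (φ z)
  map_zero' := by
    rw [map_zero]
    exact Function.update_eq_self b 0
  map_add' z w := by
    funext i
    by_cases h : i = b
    · subst h
      simp
    · simp [Function.update_of_ne h]

theorem updH_self {G : Type} [DecidableEq G] {M : G → Type} [∀ i, AddCommGroup (M i)] (b : G)
    (φ : (∀ i, M i) →+ M b) (z : ∀ i, M i) : updH b φ z b = φ z :=
  Function.update_self b _ _

theorem updH_ne {G : Type} [DecidableEq G] {M : G → Type} [∀ i, AddCommGroup (M i)] (b : G)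
    (φ : (∀ i, M i) →+ M b) (z : ∀ i, M i) {i : G} (h : i ≠ b) : updH b φ z i = z i :=
  Function.update_of_ne h _ _

variable {K : Type} [Field K] [NumberField K] [DecidableEq K] {σ : Type} [Fintype σ]
  [DecidableEq σ] {W : σ → Affine K}

/-- moves from relations -/
theorem Move.mk' {H : ∀ i, (W i).Point → ℝ} {μ : (∀ i, (W i).Point) →+ (∀ i, (W i).Point)}
    (up : ∃ C : ℝ, 0 < C ∧ ∀ z, nrs H (μ z) ≤ C * nrs H z)
    (dn : ∃ C : ℝ, 0 < C ∧ ∀ z, nrs H z ≤ C * nrs H (μ z)) (b : σ)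
    (hμ : ∀ z i, i ≠ b → μ z i = z i) (Rel : (σ → K) → K → Prop) (Z0 : MvPolynomial σ K)
    (hZ0 : Z0 ≠ 0)
    (h1 : ∀ z : ∀ i, (W i).Point, (∀ i, z i ≠ 0 ∧ ps (z i) ≠ 0) → eval (xs z) Z0 ≠ 0 →
      μ z b ≠ 0 ∧ Rel (xs z) (xc (μ z b)))
    (hgen : ∀ Z' : MvPolynomial σ K, Z' ≠ 0 → ∃ Z : MvPolynomial σ K, Z ≠ 0 ∧
      ∀ (x : σ → K) (y : K), Rel x y → eval (Function.update x b y) Z' = 0 → eval x Z = 0)
    (htrf : ∀ (D : ℕ) (ι : Type) [Fintype ι] (f : ι → MvPolynomial σ K),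
      (∀ j i, degreeOf i (f j) ≤ D) → CodimGT D f 1 →
      ∃ (E : ℕ) (J : Type) (_ : Fintype J) (f' : J → MvPolynomial σ K) (c : ℝ),
        (∀ j i, degreeOf i (f' j) ≤ E) ∧ CodimGT E f' 1 ∧ 0 ≤ c ∧
        ∀ (x : σ → K) (y : K), Rel x y →
          (∃ j, eval (Function.update x b y) (f' j) ≠ 0) → (∃ j, eval x (f j) ≠ 0) ∧
          cH D f x ≤ cH E f' (Function.update x b y) + c) : Move H μ := by
  have hx : ∀ z, xs (μ z) = Function.update (xs z) b (xc (μ z b)) := by
    intro z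
    funext i
    by_cases h : i = b
    · subst h
      rw [Function.update_self]
      rfl
    · rw [Function.update_of_ne h]
      show xc (μ z i) = xc (z i)
      rw [hμ z i h]
  have gen : ∀ Z' : MvPolynomial σ K, Z' ≠ 0 → ∃ Z : MvPolynomial σ K, Z ≠ 0 ∧
      ∀ z : ∀ i, (W i).Point, (∀ i, z i ≠ 0 ∧ ps (z i) ≠ 0) → eval (xs z) Z ≠ 0 →
        (∀ i, μ z i ≠ 0 ∧ ps (μ z i) ≠ 0) ∧ eval (xs (μ z)) Z' ≠ 0 := by
    intro Z' hZ'
    obtain ⟨Z1, hZ1, hh⟩ := hgen (Z' * Bq W b) (mul_ne_zero hZ' (Bq_ne_zero W b))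
    refine ⟨Z0 * Z1, mul_ne_zero hZ0 hZ1, fun z hz hzZ => ?_⟩
    rw [map_mul] at hzZ
    obtain ⟨a1, a2⟩ := h1 z hz (left_ne_zero_of_mul hzZ)
    have a3 : eval (xs (μ z)) (Z' * Bq W b) ≠ 0 := by
      intro h0
      rw [hx] at h0
      exact right_ne_zero_of_mul hzZ (hh _ _ a2 h0)
    rw [map_mul, eval_Bq] at a3
    refine ⟨fun i => ?_, left_ne_zero_of_mul a3⟩
    by_cases h : i = b
    · subst h
      refine ⟨a1, fun h0 => ?_⟩
      have := (Pool.Agent.Helper12.SGB.th_EUP K (W i)).1 (μ z i) a1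
      rw [h0] at this
      refine right_ne_zero_of_mul a3 ?_
      show Bf (W i) (xc (μ z i)) = 0
      rw [← this]; ring
    · rw [hμ z i h]
      exact hz i
  refine ⟨up, dn, gen, ?_⟩
  intro D J _ f hf hc
  obtain ⟨E, J', iJ', f', c, b1, b2, b3, b4⟩ := htrf D J f hf hc
  obtain ⟨P0, hP0, hoff⟩ := @off_of K _ _ σ _ _ E J' iJ' f' b1 b2
  obtain ⟨G, hG, hh⟩ := gen P0 hP0
  refine ⟨E, J', iJ', f', c, Z0 * G, b1, b2, mul_ne_zero hZ0 hG, fun z hz hzG => ?_⟩
  rw [map_mul] at hzG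
  obtain ⟨-, a2⟩ := h1 z hz (left_ne_zero_of_mul hzG)
  obtain ⟨-, a3⟩ := hh z hz (right_ne_zero_of_mul hzG)
  have a4 := hoff _ a3
  refine ⟨a4, ?_⟩
  rw [hx] at a4 ⊢
  exact (b4 _ _ a2 a4).2

/-! ## `z_b ↦ z_b + z_a` -/

theorem TH_symm {R : Type} [CommRing R] (w : WeierstrassCurve R) (x y t : R) :
    TH w x y t = TH w y x t := by
  unfold TH
  ring

/-- the sum of the heights, without `b` -/
theorem nrs_split {H : ∀ i, (W i).Point → ℝ} (b : σ) (z : ∀ i, (W i).Point) :
    nrs H z = H b (z b) + ∑ i ∈ Finset.univ.erase b, H i (z i) := by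
  unfold nrs
  exact (Finset.add_sum_erase Finset.univ (fun i => H i (z i)) (Finset.mem_univ b)).symm

theorem moveAdd (hT : TRF) (hG : GENP) (hX : THX) (hW : ∀ i, (W i).IsElliptic)
    {H : ∀ i, (W i).Point → ℝ} (hH : ∀ i, IsQuad (H i)) {a b : σ} (hab : a ≠ b)
    (h : W a = W b) (hHh : ∀ P, H b (tr h P) = H a P) :
    Move H (updH b
      ((Pi.evalAddMonoidHom (fun i => (W i).Point) b) +
        (tr h).comp (Pi.evalAddMonoidHom (fun i => (W i).Point) a))) := by
  classical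
  set φ : (∀ i, (W i).Point) →+ (W b).Point := (Pi.evalAddMonoidHom (fun i => (W i).Point) b) +
        (tr h).comp (Pi.evalAddMonoidHom (fun i => (W i).Point) a) with hφd
  have hφ : ∀ z, φ z = z b + tr h (z a) := fun z => rfl
  have hb0 : ∀ z : ∀ i, (W i).Point, ∀ i, 0 ≤ H i (z i) := fun z i => (hH i).nonneg _
  have hle : ∀ z : ∀ i, (W i).Point, H a (z a) ≤ ∑ i ∈ Finset.univ.erase b, H i (z i) :=
    fun z => Finset.single_le_sum (f := fun i => H i (z i)) (fun i _ => hb0 z i)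
      (Finset.mem_erase.2 ⟨hab, Finset.mem_univ a⟩)
  have hsum : ∀ z : ∀ i, (W i).Point, ∑ i ∈ Finset.univ.erase b, H i (updH b φ z i) =
      ∑ i ∈ Finset.univ.erase b, H i (z i) := by
    intro z
    refine Finset.sum_congr rfl fun i hi => ?_
    rw [updH_ne b φ z (Finset.ne_of_mem_erase hi)]
  have hpar : ∀ P Q : (W b).Point, H b (P + Q) ≤ 2 * H b P + 2 * H b Q := by
    intro P Q
    have := (hH b).par P Q
    have := (hH b).nonneg (P - Q)
    linarith
  have hparm : ∀ P Q : (W b).Point, H b P ≤ 2 * H b (P + Q) + 2 * H b Q := by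
    intro P Q
    have h1 := (hH b).par (P + Q) Q
    have h2 := (hH b).nonneg (P + Q + Q)
    have h3 : P + Q - Q = P := add_sub_cancel_right P Q
    rw [h3] at h1
    linarith
  refine Move.mk' (b := b) ⟨3, by norm_num, fun z => ?_⟩ ⟨3, by norm_num, fun z => ?_⟩
    (fun z i hi => updH_ne b φ z hi) (fun x y => TH (W b) (x a) (x b) y = 0) (X a - X b) ?_
    ?_ ?_ ?_
  · rw [nrs_split b (updH b φ z), nrs_split b z, hsum, updH_self, hφ]
    have h1 := hpar (z b) (tr h (z a))
    rw [hHh] at h1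
    have h2 := hle z
    have h3 := hb0 z b
    have h4 := hb0 z a
    linarith
  · rw [nrs_split b (updH b φ z), nrs_split b z, hsum, updH_self, hφ]
    have h1 := hparm (z b) (tr h (z a))
    rw [hHh] at h1
    have h2 := hle z
    have h3 := (hH b).nonneg (z b + tr h (z a))
    have h4 := hb0 z a
    linarith
  · intro h0
    exact hab (X_injective (R := K) (sub_eq_zero.1 h0))
  · intro z hz hzZ
    rw [map_sub, eval_X, eval_X] at hzZ
    have hne : updH b φ z b ≠ 0 := by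
      rw [updH_self, hφ]
      intro h0
      have h1 : z b = - tr h (z a) := eq_neg_of_add_eq_zero_left h0
      apply hzZ
      show xc (z a) - xc (z b) = 0
      have h2 : xc (- tr h (z a)) = xc (tr h (z a)) := by
        cases tr h (z a) with
        | zero => rfl
        | some x y hxy => rfl
      rw [h1, h2, xc_tr, sub_self]
    refine ⟨hne, ?_⟩
    rw [updH_self, hφ] at hne ⊢
    have := hW b
    have h1 := hX K (W b) (z b) (tr h (z a)) two_ne_zero (hz b).1 (tr_ne_zero h (hz a).1) hne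
    rw [xc_tr] at h1
    rw [TH_symm]
    exact h1
  · intro Z' hZ'
    exact hG K (W b) (hW b) σ a b hab Z' hZ'
  · intro D ι _ f hf hc
    exact hT K (W b) (hW b) σ D ι f hf hc a b hab

/-! ## `z_b ↦ ρ z_b` -/

theorem moveMul (hT : MTRF) (hG : MGENP) (hHT : HTR) (hW : ∀ i, (W i).IsElliptic)
    {H : ∀ i, (W i).Point → ℝ} {c₀ : ℝ} (hH : ∀ i, CanH (W i) (H i) c₀) (b : σ) {R : Subring K}
    (ac : ∀ (F : Type) [Field F] [DecidableEq F] [Algebra K F],
      R →+* AddMonoid.End (WL F (W b)).Point) (hac : RAct (W b) R ac) {ρ : R} (hρ : ρ ≠ 0) :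
    Move H (updH b ((acK ac ρ : (W b).Point →+ (W b).Point).comp
      (Pi.evalAddMonoidHom (fun i => (W i).Point) b))) := by
  classical
  set φ : (∀ i, (W i).Point) →+ (W b).Point := (acK ac ρ : (W b).Point →+ (W b).Point).comp
      (Pi.evalAddMonoidHom (fun i => (W i).Point) b) with hφd
  have hφ : ∀ z, φ z = acK ac ρ (z b) := fun z => rfl
  have hb0 : ∀ z : ∀ i, (W i).Point, ∀ i, 0 ≤ H i (z i) := fun z i => (hH i).quad.nonneg _
  have hS0 : ∀ z : ∀ i, (W i).Point, 0 ≤ ∑ i ∈ Finset.univ.erase b, H i (z i) :=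
    fun z => Finset.sum_nonneg fun i _ => hb0 z i
  have hsum : ∀ z : ∀ i, (W i).Point, ∑ i ∈ Finset.univ.erase b, H i (updH b φ z i) =
      ∑ i ∈ Finset.univ.erase b, H i (z i) := by
    intro z
    refine Finset.sum_congr rfl fun i hi => ?_
    rw [updH_ne b φ z (Finset.ne_of_mem_erase hi)]
  obtain ⟨n, hn, hh⟩ := hHT K (W b) (hW b) R ac hac (H b) c₀ (hH b) ρ hρ
  have hn1 : (1 : ℝ) ≤ n := by exact_mod_cast hn
  obtain ⟨A, B, hcop, hdeg, hrat⟩ := hac.rat ρ hρ
  have hB0 : B ≠ 0 := by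
    rintro rfl
    rw [isCoprime_zero_right] at hcop
    have := Polynomial.natDegree_eq_zero_of_isUnit hcop
    omega
  have hP : PairM A B := ⟨hcop, hdeg⟩
  have hev : ∀ x : σ → K, eval x (Polynomial.aeval (X b : MvPolynomial σ K) B) =
      Polynomial.eval (x b) B := by
    intro x
    have h1 := Polynomial.hom_eval₂ B (algebraMap K (MvPolynomial σ K)) (eval x) (X b)
    rw [Polynomial.aeval_def, h1, eval_X]
    have h2 : (eval x).comp (algebraMap K (MvPolynomial σ K)) = RingHom.id K := by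
      ext c
      simp
    rw [h2, Polynomial.eval₂_id]
  refine Move.mk' (b := b) ⟨n, by linarith, fun z => ?_⟩ ⟨1, by norm_num, fun z => ?_⟩
    (fun z i hi => updH_ne b φ z hi)
    (fun x y => Polynomial.eval (x b) B * y = Polynomial.eval (x b) A)
    (Polynomial.aeval (X b : MvPolynomial σ K) B) ?_ ?_ ?_ ?_
  · rw [nrs_split b (updH b φ z), nrs_split b z, hsum, updH_self, hφ, hh]
    have h1 := hS0 z
    nlinarith
  · rw [nrs_split b (updH b φ z), nrs_split b z, hsum, updH_self, hφ, hh]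
    have h1 := hb0 z b
    nlinarith
  · intro h0
    apply hB0
    refine Polynomial.funext fun t => ?_
    rw [← hev (fun _ => t), h0, map_zero, Polynomial.eval_zero]
  · intro z hz hzZ
    rw [hev] at hzZ
    obtain ⟨h1, h2⟩ := hrat K (z b) (hz b).1
    rw [Polynomial.coe_aeval_eq_eval] at h1 h2
    have hne : acK ac ρ (z b) ≠ 0 := fun h0 => hzZ (h1.1 h0)
    rw [updH_self, hφ]
    refine ⟨hne, ?_⟩
    have h3 := (h2 hne).1
    show Polynomial.eval (xc (z b)) B * xc (acK ac ρ (z b)) = Polynomial.eval (xc (z b)) A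
    rw [mul_comm]
    exact h3
  · intro Z' hZ'
    exact hG K A B hP σ b Z' hZ'
  · intro D ι _ f hf hc
    exact hT K A B hP σ D ι f hf hc b

end

end Pool.Agent.Helper60.TG
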