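import Pool.Agent.Helper60.TG.GoodC
import Pool.Agent.Helper92.TG.Cmb

/-!
# Project TG (MP_a41896_nt): END with rings of endomorphisms, part D (combinations, the end theorem)
-/

set_option autoImplicit false

open MvPolynomial

namespace Pool.Agent.Helper60.TG

open WeierstrassCurve Height
open Pool.Agent.Helper29.BL Pool.Agent.Helper42.SG
open Pool.Agent.Helper92.Ru hiding cmb
open Pool.Agent.Helper5.UN (CodimGT cH)
open Pool.Agent.Helper60.HC (Lo nrs xs)
open Pool.Agent.Helper60.T3 (WL)
open Pool.Agent.Helper42.TG (RAct RAll EXR EndsOverK acK acS HTR S_PRM S_TGM Free slowP cmbR TFamR)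
open Pool.Agent.Helper42.TN (NonIsog)
open Pool.Agent.Helper3.TG (TH TRF GENP THX)
open Pool.Agent.Helper68.TG.M (PairM MTRF MGENP)
open Pool.Agent.Helper19.TN (UD MAINW)
open Pool.Agent.Helper19.PM
open Pool.Agent.Helper92.TG (cst cst_eq_zero cmbR_one cmbR_extend tfR_comp)

noncomputable section

variable {K : Type} [Field K] [NumberField K] [DecidableEq K] {σ : Type} [Fintype σ]
  [DecidableEq σ] {ι : Type} {E : ι → Affine K}

theorem tr_ac (R : ι → Subring K)
    (ac : ∀ (c : ι) (F : Type) [Field F] [DecidableEq F] [Algebra K F],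
      R c →+* AddMonoid.End (WL F (E c)).Point) {c c' : ι} (h : c = c') (r : R c')
    (P : (E c).Point) :
    tr (congrArg E h) (acK (ac c) (cst (R := fun c => R c) h.symm r) P) =
      acK (ac c') r (h ▸ P) := by
  subst h
  rfl

theorem H_tr (H : ∀ c, (E c).Point → ℝ) {c c' : ι} (h : c = c') (P : (E c).Point) :
    H c' (tr (congrArg E h) P) = H c P := by
  subst h
  rfl

/-- the combination with the coefficients `N` as the new coordinate `b` -/
theorem exists_move [DecidableEq ι] (hT : TRF) (hG : GENP) (hX : THX) (hMT : MTRF) (hMG : MGENP)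
    (hHT : HTR) (hE : ∀ c, (E c).IsElliptic) {H : ∀ c, (E c).Point → ℝ} {c₀ : ℝ}
    (hH : ∀ c, CanH (E c) (H c) c₀) (R : ι → Subring K)
    (ac : ∀ (c : ι) (F : Type) [Field F] [DecidableEq F] [Algebra K F],
      R c →+* AddMonoid.End (WL F (E c)).Point) (hac : ∀ c, RAct (E c) (R c) (ac c))
    (cl : σ → ι) (b : σ) (N : σ → R (cl b)) (hb : N b ≠ 0) (T : Finset σ) (hbT : b ∉ T) :
    ∃ μ : (∀ i, (E (cl i)).Point) →+ (∀ i, (E (cl i)).Point),
      Move (W := fun i => E (cl i)) (fun i => H (cl i)) μ ∧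
      (∀ z i, i ≠ b → (i ∉ T ∨ N i = 0) → μ z i = z i) ∧
      ∀ z, μ z b = acK (ac (cl b)) (N b) (z b) +
        ∑ i ∈ T, if h : cl i = cl b then acK (ac (cl b)) (N i) (h ▸ z i) else 0 := by
  induction T using Finset.induction_on with
  | empty =>
    refine ⟨_, moveMul (W := fun i => E (cl i)) hMT hMG hHT (fun i => hE _) (fun i => hH (cl i))
      b (ac (cl b)) (hac (cl b)) hb, fun z i hi _ => updH_ne _ _ _ hi, fun z => ?_⟩
    rw [updH_self, Finset.sum_empty, add_zero]
    rfl
  | insert a T ha ih =>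
    have hba : a ≠ b := fun h => hbT (h ▸ Finset.mem_insert_self a T)
    have hbT' : b ∉ T := fun h => hbT (Finset.mem_insert_of_mem h)
    obtain ⟨μ, h1, h2, h3⟩ := ih hbT'
    by_cases hc : ∃ h : cl a = cl b, N a ≠ 0
    · obtain ⟨h, hNa⟩ := hc
      have hρ : cst (R := fun c => R c) h.symm (N a) ≠ 0 := by
        rw [Ne, cst_eq_zero]
        exact hNa
      have m2 := moveMul (W := fun i => E (cl i)) hMT hMG hHT (fun i => hE _)
        (fun i => hH (cl i)) a (ac (cl a)) (hac (cl a)) hρ
      have m3 := moveAdd (W := fun i => E (cl i)) hT hG hX (fun i => hE _)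
        (H := fun i => H (cl i)) (fun i => (hH (cl i)).quad) hba (congrArg E h)
        (fun P => H_tr H h P)
      refine ⟨_, m3.comp (m2.comp h1), fun z i hi hi' => ?_, fun z => ?_⟩
      · have hia : i ≠ a := by
          rintro rfl
          rcases hi' with h4 | h4
          · exact h4 (Finset.mem_insert_self i T)
          · exact hNa h4
        rw [AddMonoidHom.comp_apply, AddMonoidHom.comp_apply, updH_ne _ _ _ hi,
          updH_ne _ _ _ hia]
        refine h2 z i hi ?_
        rcases hi' with h4 | h4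
        · exact Or.inl fun h5 => h4 (Finset.mem_insert_of_mem h5)
        · exact Or.inr h4
      · rw [AddMonoidHom.comp_apply, AddMonoidHom.comp_apply, updH_self,
          Finset.sum_insert ha, dif_pos h, ← tr_ac R ac h (N a) (z a)]
        have e1 : μ z a = z a := h2 z a hba (Or.inl ha)
        set w := updH a ((acK (ac (cl a)) (cst (R := fun c => R c) h.symm (N a)) :
          (E (cl a)).Point →+ (E (cl a)).Point).comp
          (Pi.evalAddMonoidHom (fun i => (E (cl i)).Point) a)) (μ z) with hw
        have e2 : w b = μ z b := updH_ne _ _ _ (Ne.symm hba)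
        have e3 : w a = acK (ac (cl a)) (cst (R := fun c => R c) h.symm (N a)) (z a) := by
          rw [hw, updH_self]
          show acK (ac (cl a)) (cst (R := fun c => R c) h.symm (N a)) (μ z a) = _
          rw [e1]
        show w b + tr (congrArg E h) (w a) = _
        rw [e2, e3, h3 z]
        abel
    · refine ⟨μ, h1, fun z i hi hi' => ?_, fun z => ?_⟩
      · by_cases hia : i = a
        · subst hia
          exact h2 z i hi (Or.inl ha)
        · refine h2 z i hi ?_
          rcases hi' with h4 | h4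
          · exact Or.inl fun h5 => h4 (Finset.mem_insert_of_mem h5)
          · exact Or.inr h4
      · rw [Finset.sum_insert ha, h3 z]
        congr 1
        split_ifs with h
        · have hNa : N a = 0 := by
            by_contra h4
            exact hc ⟨h, h4⟩
          rw [hNa, map_zero]
          exact (zero_add _).symm
        · exact (zero_add _).symm

/-- the combination with the coefficients `N` as the new coordinate `b` -/
theorem exists_move' [DecidableEq ι] (hT : TRF) (hG : GENP) (hX : THX) (hMT : MTRF)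
    (hMG : MGENP)
    (hHT : HTR) (hE : ∀ c, (E c).IsElliptic) {H : ∀ c, (E c).Point → ℝ} {c₀ : ℝ}
    (hH : ∀ c, CanH (E c) (H c) c₀) (R : ι → Subring K)
    (ac : ∀ (c : ι) (F : Type) [Field F] [DecidableEq F] [Algebra K F],
      R c →+* AddMonoid.End (WL F (E c)).Point) (hac : ∀ c, RAct (E c) (R c) (ac c))
    (cl : σ → ι) (b : σ) (N : σ → R (cl b)) (hb : N b ≠ 0) :
    ∃ μ : (∀ i, (E (cl i)).Point) →+ (∀ i, (E (cl i)).Point),
      Move (W := fun i => E (cl i)) (fun i => H (cl i)) μ ∧
      (∀ z i, i ≠ b → N i = 0 → μ z i = z i) ∧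
      ∀ z, μ z b = cmbR (M := fun c => (E c).Point) (fun c => acK (ac c)) cl z (cl b) N := by
  obtain ⟨μ, h1, h2, h3⟩ := exists_move hT hG hX hMT hMG hHT hE hH R ac hac cl b N hb
    (Finset.univ.erase b) (Finset.notMem_erase b _)
  refine ⟨μ, h1, fun z i hi hi' => h2 z i hi (Or.inr hi'), fun z => ?_⟩
  rw [h3]
  unfold cmbR
  rw [← Finset.add_sum_erase Finset.univ _ (Finset.mem_univ b), dif_pos rfl]

open Classical in
/-- the slow coordinates -/
def sls {W : σ → Affine K} (U : Ultrafilter ℕ) (H : ∀ i, (W i).Point → ℝ)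
    (y : ℕ → ∀ i, (W i).Point) : Finset σ :=
  Finset.univ.filter fun i => ∀ η : ℝ, 0 < η → ∀ᶠ k in (U : Filter ℕ),
    H i (y k i) ≤ η * nrs H (y k)

theorem mem_sls {W : σ → Affine K} {U : Ultrafilter ℕ} {H : ∀ i, (W i).Point → ℝ}
    {y : ℕ → ∀ i, (W i).Point} {i : σ} : i ∈ sls U H y ↔ ∀ η : ℝ, 0 < η →
      ∀ᶠ k in (U : Filter ℕ), H i (y k i) ≤ η * nrs H (y k) := by
  simp only [sls, Finset.mem_filter, Finset.mem_univ, true_and]

/-- no good sequences -/
theorem no_good [DecidableEq ι] (hPR : S_PRM) (hP : S_P1S) (hEM : EMS) (hT : TRF) (hG : GENP)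
    (hX : THX)
    (hMT : MTRF) (hMG : MGENP) (hHT : HTR) (hE : ∀ c, (E c).IsElliptic)
    (hNI : ∀ c c', c ≠ c' → NonIsog (E c) (E c'))
    {H : ∀ c, (E c).Point → ℝ} {c₀ : ℝ}
    (hH : ∀ c, CanH (E c) (H c) c₀) (R : ι → Subring K)
    (ac : ∀ (c : ι) (F : Type) [Field F] [DecidableEq F] [Algebra K F],
      R c →+* AddMonoid.End (WL F (E c)).Point) (hac : ∀ c, RAct (E c) (R c) (ac c))
    (cl : σ → ι) (hall : ∀ i k, i ≠ k → cl i = cl k → RAll (E (cl i)) (R (cl i)) (ac (cl i)))
    (U : Ultrafilter ℕ) (m : ℕ) (y : ℕ → ∀ i, (E (cl i)).Point)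
    (hg : Good (W := fun i => E (cl i)) U (fun i => H (cl i)) y)
    (hm : Fintype.card σ - (sls (W := fun i => E (cl i)) U (fun i => H (cl i)) y).card = m) :
    False := by
  classical
  have hQ : IsQuad (nrs (W := fun i => E (cl i)) fun i => H (cl i)) :=
    Pool.Agent.Helper60.HC.th_QPI.1 σ (fun i => (E (cl i)).Point) (fun i => H (cl i))
      fun i => (hH (cl i)).quad
  induction m using Nat.strong_induction_on generalizing y with
  | _ m ih =>
  set N : ℕ → ℝ := fun k => nrs (W := fun i => E (cl i)) (fun i => H (cl i)) (y k) with hN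
  set S := sls (W := fun i => E (cl i)) U (fun i => H (cl i)) y with hSd
  have hS : ∀ a ∈ S, ∀ δ : ℝ, 0 < δ → ∀ᶠ j in (U : Filter ℕ),
      logHeight₁ (xs (W := fun i => E (cl i)) (y j) a) ≤
        δ * nrs (W := fun i => E (cl i)) (fun i => H (cl i)) (y j) := by
    intro a ha δ hδ
    filter_upwards [mem_sls.1 ha (δ / 2) (half_pos hδ), hg.ud.big (2 * c₀ / δ)] with j h1 h2
    have h3 := (abs_le.1 ((hH (cl a)).near (y j a))).1
    have h4 : logHeight₁ (xs (W := fun i => E (cl i)) (y j) a) = hx (y j a) := rfl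
    rw [h4]
    rw [div_le_iff₀ hδ] at h2
    linarith
  by_cases hTF : TFamR (M := fun c => ℕ → (E c).Point) (fun c => acS (ac c))
      (fun c => slowP U N (H c)) (fun i : {i // i ∉ S} => cl i.1) (fun i k => y k i.1)
  · -- free
    obtain ⟨r, ⟨e⟩⟩ : ∃ r, Nonempty (Fin r ≃ {i // i ∉ S}) :=
      ⟨_, ⟨(Fintype.equivFin {i // i ∉ S}).symm⟩⟩
    have hone : ∀ j : Fin r, cmbR (M := fun c => ℕ → (E c).Point) (fun c => acS (ac c)) cl
        (fun i k => y k i) (cl (e j).1) (fun i => if i = (e j).1 then 1 else 0) =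
        fun k => y k (e j).1 := fun j =>
      cmbR_one (M := fun c => ℕ → (E c).Point) (fun c => acS (ac c)) cl (fun i k => y k i) (e j).1
    have h1 := hPR K ι E hE hNI R ac hac σ cl hall H c₀ hH U y hg.ud r (fun j => cl (e j).1)
      (fun j i => if i = (e j).1 then 1 else 0) (by
        have h2 := tfR_comp hTF e e.injective
        have h3 : (fun j : Fin r => cmbR (M := fun c => ℕ → (E c).Point) (fun c => acS (ac c)) cl
            (fun i k => y k i) (cl (e j).1) (fun i => if i = (e j).1 then 1 else 0)) =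
            fun j : Fin r => (fun k => y k (e j).1) := funext hone
        rw [h3]
        exact h2)
    refine coreG (W := fun i => E (cl i)) hP hEM (fun i => hE _) (fun i => hH (cl i)) hQ hg S hS ?_
    intro D
    obtain ⟨η, hη, h2⟩ := h1 D
    refine ⟨η, hη, ?_⟩
    filter_upwards [h2] with k hk hlo
    refine hk ?_
    have h3 := Pool.Agent.Helper19.TG.lo_pull (σ := {i // i ∉ S}) (fun j : Fin r => e j)
      e.injective (fun i _ => ⟨e.symm i, e.apply_symm_apply i⟩) hlo
    have h4 : (fun j : Fin r => xc (cmbR (M := fun c => ℕ → (E c).Point) (fun c => acS (ac c)) cl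
        (fun i k => y k i) (cl (e j).1) (fun i => if i = (e j).1 then 1 else 0) k)) =
        fun j : Fin r => xs (W := fun i => E (cl i)) (y k) (e j).1 := by
      funext j
      rw [hone j]
      rfl
    rw [h4]
    exact h3
  · -- a new slow coordinate
    have hTF' : ∃ (c : ι) (n : {i // i ∉ S} → R c), (∃ j, cl j.1 = c ∧ n j ≠ 0) ∧
        cmbR (M := fun c => ℕ → (E c).Point) (fun c => acS (ac c))
          (fun i : {i // i ∉ S} => cl i.1) (fun i k => y k i.1) c n ∈ slowP U N (H c) := by
      by_contra hcon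
      push Not at hcon
      exact hTF fun c n hn => hcon c n hn
    obtain ⟨c, n, ⟨b, hbc, hnb⟩, hmem⟩ := hTF'
    obtain ⟨b, hbS⟩ := b
    dsimp only at hbc
    subst hbc
    rw [cmbR_extend (M := fun c => ℕ → (E c).Point) (ac := fun c => acS (ac c)) (cl := cl)
      (fun i : {i // i ∉ S} => (i : σ)) Subtype.val_injective (fun i k => y k i) (cl b) n] at hmem
    set n' : σ → R (cl b) := fun j => ∑ i : {i // i ∉ S}, if (i : σ) = j then n i else 0 with hn'
    have hn'b : n' b ≠ 0 := by
      rw [hn']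
      dsimp only
      rw [Finset.sum_eq_single (⟨b, hbS⟩ : {i // i ∉ S})]
      · rw [if_pos rfl]
        exact hnb
      · intro i _ hi
        rw [if_neg]
        intro h
        exact hi (Subtype.ext h)
      · intro h
        exact absurd (Finset.mem_univ _) h
    have hn'S : ∀ j ∈ S, n' j = 0 := by
      intro j hj
      rw [hn']
      dsimp only
      refine Finset.sum_eq_zero fun i _ => ?_
      rw [if_neg]
      intro h
      exact i.2 (h ▸ hj)
    obtain ⟨μ, hμ, hμ1, hμ2⟩ := exists_move' hT hG hX hMT hMG hHT hE hH R ac hac cl b n' hn'b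
    obtain ⟨y', hg', hy'⟩ := Move.good hQ hμ hg
    obtain ⟨C, hC, hdn⟩ := hμ.dn
    have hsl : ∀ i : σ, (∀ η : ℝ, 0 < η → ∀ᶠ k in (U : Filter ℕ), H (cl i) (μ (y k) i) ≤ η * N k) →
        i ∈ sls (W := fun i => E (cl i)) U (fun i => H (cl i)) y' := by
      intro i hi
      rw [mem_sls]
      intro η hη
      filter_upwards [hi (η / C) (by positivity), hy'] with k h1 h2
      rw [h2]
      have h3 := hdn (y k)
      have h4 : η / C * N k ≤ η / C * (C * nrs (W := fun i => E (cl i)) (fun i => H (cl i))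
          (μ (y k))) := mul_le_mul_of_nonneg_left h3 (by positivity)
      have h5 : η / C * (C * nrs (W := fun i => E (cl i)) (fun i => H (cl i)) (μ (y k))) =
          η * nrs (W := fun i => E (cl i)) (fun i => H (cl i)) (μ (y k)) := by
        field_simp
      linarith
    have hsub : insert b S ⊆ sls (W := fun i => E (cl i)) U (fun i => H (cl i)) y' := by
      intro i hi
      refine hsl i ?_
      rcases Finset.mem_insert.1 hi with h | h
      · subst h
        intro η hη
        filter_upwards [hmem η hη] with k hk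
        rw [hμ2]
        have h1 := Pool.Agent.Helper19.TG.cmbR_seq (M := fun c => (E c).Point)
          (fun c => acK (ac c)) cl (fun i k => y k i) (cl i) n' k
        have h2 : cmbR (M := fun c => (E c).Point) (fun c => acK (ac c)) cl (y k) (cl i) n' =
            cmbR (M := fun c => ℕ → (E c).Point) (fun c => acS (ac c)) cl
              (fun i k => y k i) (cl i) n' k := h1.symm
        rw [h2]
        exact hk
      · intro η hη
        have hib : i ≠ b := fun h' => hbS (h' ▸ h)
        filter_upwards [mem_sls.1 h η hη] with k hk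
        rw [hμ1 (y k) i hib (hn'S i h)]
        exact hk
    have hcard := Finset.card_le_card hsub
    rw [Finset.card_insert_of_notMem hbS] at hcard
    have hcs := Finset.card_le_univ (sls (W := fun i => E (cl i)) U (fun i => H (cl i)) y')
    refine ih _ ?_ y' hg' rfl
    rw [← hm]
    omega

/-- the end theorem, finitely many classes -/
theorem tgm_fin (hPR : S_PRM) (hP : S_P1S) (hEM : EMS) (hT : TRF) (hG : GENP) (hX : THX)
    (hMT : MTRF) (hMG : MGENP) (hHT : HTR) (hEX : EXR) [Fintype ι] [DecidableEq ι]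
    (hE : ∀ c, (E c).IsElliptic) (hNI : ∀ c c', c ≠ c' → NonIsog (E c) (E c'))
    (cl : σ → ι) (hcl : ∀ i k, i ≠ k → cl i = cl k → EndsOverK (E (cl i))) :
    MAINW K σ (fun i => E (cl i)) := by
  by_contra hno
  have hcan' : ∀ c, ∃ (H : (E c).Point → ℝ) (c₀ : ℝ), CanH (E c) H c₀ := fun c => by
    have := hE c
    exact Pool.Agent.Helper29.BL.th_can K (E c)
  choose H cc hH0 using hcan'
  have hcn : ∀ c, 0 ≤ cc c := fun c => (abs_nonneg _).trans ((hH0 c).near 0)
  have hc0 : 0 ≤ ∑ c, cc c := Finset.sum_nonneg fun c _ => hcn c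
  have hH : ∀ c, CanH (E c) (H c) (∑ c, cc c) := fun c =>
    ⟨(hH0 c).quad, fun P => ((hH0 c).near P).trans
      (Finset.single_le_sum (fun j _ => hcn j) (Finset.mem_univ c))⟩
  have hex := fun c => hEX K (E c) (hE c)
  choose R ac hac hall using hex
  obtain ⟨U, y, hg⟩ := exists_good (W := fun i => E (cl i)) (fun i => hH (cl i)) hc0 hno
  exact no_good hPR hP hEM hT hG hX hMT hMG hHT hE hNI hH R (fun c F => ac c F) (fun c => hac c)
    cl (fun i k hik h => hall (cl i) (hcl i k hik h)) U _ y hg rfl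

/-- **END-GR** -/
theorem tgm (hPR : S_PRM) (hP : S_P1S) (hEM : EMS) (hT : TRF) (hG : GENP) (hX : THX)
    (hMT : MTRF) (hMG : MGENP) (hHT : HTR) (hEX : EXR) : S_TGM := by
  intro K _ _ _ ι _ E hE hNI σ _ _ cl hcl
  exact tgm_fin (ι := {c // c ∈ Finset.univ.image cl}) (E := fun c => E c.1) hPR hP hEM hT hG hX
    hMT hMG hHT hEX (fun c => hE c.1) (fun c c' h => hNI c.1 c'.1 fun h' => h (Subtype.ext h'))
    (fun i => ⟨cl i, Finset.mem_image_of_mem cl (Finset.mem_univ i)⟩)
    (fun i k hik h => hcl i k hik (congrArg Subtype.val h))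

end

end Pool.Agent.Helper60.TG
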