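import Pool.Agent.Helper60.TG.GoodD
import Pool.Agent.Helper19.TG.Main
import Pool.Agent.Helper19.PM.MainS
import Pool.Agent.Helper3.TG.Main
import Pool.Agent.Helper68.TG.MainM
import Pool.Agent.Helper92.TG.MainH
import Pool.Agent.Helper92.TG.MainX

/-!
# Project TG (MP_a41896_nt): S_TGM, unconditional
-/

set_option autoImplicit false

namespace Pool.Agent.Helper60.TG

/-- **the end theorem, CM version**: all centres of codimension at least two in products of elliptic curves -/
theorem th_TGM : Pool.Agent.Helper42.TG.S_TGM :=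
  tgm Pool.Agent.Helper19.TG.th_PRM Pool.Agent.Helper19.PM.th_P1S Pool.Agent.Helper19.PM.th_EMS
    Pool.Agent.Helper3.TG.Main.th_TRF Pool.Agent.Helper3.TG.Main.th_GENP
    Pool.Agent.Helper3.TG.Main.th_THX Pool.Agent.Helper68.TG.M.th_MTRF
    Pool.Agent.Helper68.TG.M.th_MGENP Pool.Agent.Helper92.TG.MainH.th_HTR
    Pool.Agent.Helper92.TG.MainX.th_EXR

end Pool.Agent.Helper60.TG
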